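import Mathlib

/-!
MODULE Bern (size S-M, Mathlib only).  A Bernoulli number identity.

PROOF.  Let `n = 2 p + 1`.  `Polynomial.bernoulli_eval_one_sub` at `x = 1/2` gives `B_n(1/2) = (-1)^n B_n(1/2)`, so
`B_n(1/2) = 0` (`n` odd).  `B_n(x) = ∑ k ∈ range (n+1), C(n,k) B_k x^(n-k)` (see `Polynomial.bernoulli_def`), multiply
by `2^n`: `∑ k ∈ range (n+1), C(n,k) 2^k B_k = 0`.  The odd `k ≥ 3` have `B_k = 0` (`bernoulli_eq_zero_of_odd`),
`k = 1` gives `n * 2 * (-1/2) = -n`.  So the sum over even `k = 2 l`, `l ≤ p`, is `n`.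
-/

set_option autoImplicit false

namespace Pool.Agent.Work.MP_4d52ff_nt.EP

private theorem sum_two (f : ℕ → ℚ) (m : ℕ) :
    ∑ i ∈ Finset.range (2 * m), f i =
      ∑ l ∈ Finset.range m, f (2 * l) + ∑ l ∈ Finset.range m, f (2 * l + 1) := by
  induction m with
  | zero => simp
  | succ m ih =>
    rw [show 2 * (m + 1) = 2 * m + 1 + 1 by ring, Finset.sum_range_succ, Finset.sum_range_succ, ih,
      Finset.sum_range_succ, Finset.sum_range_succ]
    ring

private theorem all_sum (p : ℕ) :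
    ∑ i ∈ Finset.range (2 * (p + 1)),
      ((2 * p + 1).choose i : ℚ) * 2 ^ i * bernoulli i = 0 := by
  have h := Polynomial.bernoulli_eval_one_sub (2 * p + 1) (1 / 2)
  rw [show (1 : ℚ) - 1 / 2 = 1 / 2 by norm_num, Odd.neg_one_pow ⟨p, rfl⟩] at h
  have h0 : (Polynomial.bernoulli (2 * p + 1)).eval (1 / 2 : ℚ) = 0 := by linarith
  rw [Polynomial.bernoulli, Polynomial.eval_finsetSum] at h0
  simp only [Polynomial.eval_monomial] at h0
  have h1 : (2 : ℚ) ^ (2 * p + 1) * ∑ i ∈ Finset.range (2 * p + 1 + 1),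
      bernoulli i * ((2 * p + 1).choose i : ℚ) * (1 / 2) ^ (2 * p + 1 - i) = 0 := by
    rw [h0, mul_zero]
  rw [Finset.mul_sum] at h1
  rw [show 2 * (p + 1) = 2 * p + 1 + 1 by ring, ← h1]
  refine Finset.sum_congr rfl fun i hi => ?_
  have hi' : i ≤ 2 * p + 1 := Nat.lt_succ_iff.mp (Finset.mem_range.mp hi)
  have h2 : (2 : ℚ) ^ (2 * p + 1) = 2 ^ i * 2 ^ (2 * p + 1 - i) := by
    rw [← pow_add]; congr 1; omega
  have h3 : (2 : ℚ) ^ (2 * p + 1 - i) * (1 / 2) ^ (2 * p + 1 - i) = 1 := by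
    rw [← mul_pow]; norm_num
  rw [h2]
  calc ((2 * p + 1).choose i : ℚ) * 2 ^ i * bernoulli i
      = 2 ^ i * (bernoulli i * ((2 * p + 1).choose i : ℚ)) *
        ((2 : ℚ) ^ (2 * p + 1 - i) * (1 / 2) ^ (2 * p + 1 - i)) := by rw [h3]; ring
    _ = _ := by ring

theorem bern_sum (p : ℕ) :
    ∑ l ∈ Finset.range (p + 1), ((2 * p + 1).choose (2 * l) : ℚ) * 4 ^ l * bernoulli (2 * l) =
      2 * (p : ℚ) + 1 := by
  have h := all_sum p
  rw [sum_two] at h
  have h1 : ∑ l ∈ Finset.range (p + 1),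
      ((2 * p + 1).choose (2 * l + 1) : ℚ) * 2 ^ (2 * l + 1) * bernoulli (2 * l + 1) =
      -(2 * (p : ℚ) + 1) := by
    rw [Finset.sum_eq_single 0]
    · simp [bernoulli_one, Nat.choose_one_right]
      ring
    · intro l _ hl
      rw [bernoulli_eq_zero_of_odd ⟨l, rfl⟩ (by omega), mul_zero]
    · intro h0
      exact absurd (Finset.mem_range.mpr (Nat.succ_pos p)) h0
  rw [h1] at h
  have h2 : ∑ l ∈ Finset.range (p + 1),
      ((2 * p + 1).choose (2 * l) : ℚ) * 4 ^ l * bernoulli (2 * l) =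
      ∑ l ∈ Finset.range (p + 1),
      ((2 * p + 1).choose (2 * l) : ℚ) * 2 ^ (2 * l) * bernoulli (2 * l) := by
    refine Finset.sum_congr rfl fun l _ => ?_
    rw [pow_mul]; norm_num
  rw [h2]
  linarith

end Pool.Agent.Work.MP_4d52ff_nt.EP
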