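import Pool.Agent.Work.MP_4d52ff_nt.EP.Defs
import Pool.Agent.Work.MP_4d52ff_nt.EP.Bern

/-!
MODULE Ident (size M).  The basic identity.

PROOF.  Insert the definition of `Rr`: `(q + c_i) Z_i - Rr c Z i = (q - i) Z_i + ∑_{1 ≤ j < i} be (i-j) Z_j`.
The coefficient of `Z_j` (`1 ≤ j ≤ q`) in the sum is
`(-1)^j (2j)! C(2q+1,2j) (q - j) + ∑_{i=j+1}^{q} (-1)^i (2i)! C(2q+1,2i) be (i-j)`.
Use `(2i)! C(2q+1,2i) = (2q+1)!/(2q+1-2i)!`, put `p = q - j`, `i = j + l`, divide by `(-1)^j (2q+1)!`: to show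
`p/(2p+1)! + ∑_{l=1}^{p} (-1)^l be l / (2(p-l)+1)! = 0`.  Since `(-1)^l be l = - 2^(2l-1) B_{2l}/(2l)!` this is
`∑_{l=1}^{p} 2^(2l-1) B_{2l} / ((2l)! (2(p-l)+1)!) = p/(2p+1)!`, i.e. (times `2 (2p+1)!`)
`∑_{l=1}^{p} C(2p+1,2l) 4^l B_{2l} = 2 p`, which is `bern_sum` minus its term `l = 0` (equal to 1).
(Exchange the order of summation, e.g. with `Finset.sum_sigma'` / `Finset.sum_comm'`, or by linearity: both sides are
linear in `Z`.)
-/

set_option autoImplicit false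

namespace Pool.Agent.Work.MP_4d52ff_nt.EP

private theorem choose_cast (n k m : ℕ) (h : n = k + m) :
    ((n.choose k : ℕ) : ℚ) * ((k.factorial : ℕ) : ℚ) * ((m.factorial : ℕ) : ℚ) =
      ((n.factorial : ℕ) : ℚ) := by
  subst h
  have h1 := Nat.choose_mul_factorial_mul_factorial (Nat.le_add_right k m)
  rw [Nat.add_sub_cancel_left] at h1
  exact_mod_cast h1

private theorem term (j l r : ℕ) :
    ((-1 : ℚ) ^ (j + 1 + l) * ((2 * (j + 1 + l)).factorial : ℚ) *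
      ((2 * (j + (l + 1 + r)) + 1).choose (2 * (j + 1 + l)) : ℚ)) * be (j + 1 + l - j) =
    (-(-1 : ℚ) ^ j * ((2 * (j + (l + 1 + r)) + 1).factorial : ℚ) /
      (2 * ((2 * (l + 1 + r) + 1).factorial : ℚ))) *
      (((2 * (l + 1 + r) + 1).choose (2 * (l + 1)) : ℚ) * 4 ^ (l + 1) *
        bernoulli (2 * (l + 1))) := by
  have e1 : j + 1 + l - j = l + 1 := by omega
  have h1 := choose_cast (2 * (j + (l + 1 + r)) + 1) (2 * (j + 1 + l)) (2 * r + 1) (by ring)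
  have h2 := choose_cast (2 * (l + 1 + r) + 1) (2 * (l + 1)) (2 * r + 1) (by ring)
  have f1 : ((2 * r + 1).factorial : ℚ) ≠ 0 := by exact_mod_cast Nat.factorial_ne_zero _
  have f2 : ((2 * (l + 1)).factorial : ℚ) ≠ 0 := by exact_mod_cast Nat.factorial_ne_zero _
  have f3 : ((2 * (l + 1 + r) + 1).factorial : ℚ) ≠ 0 := by exact_mod_cast Nat.factorial_ne_zero _
  rw [e1, be, show 2 * (l + 1) - 1 = 2 * l + 1 by omega]
  have e2 : (-1 : ℚ) ^ (j + 1 + l) * (-1) ^ (l + 1 + 1) = -(-1 : ℚ) ^ j := by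
    rw [show j + 1 + l = j + (1 + l) by ring, show l + 1 + 1 = (1 + l) + 1 by ring, pow_add,
      pow_add _ (1 + l) 1]
    have : ((-1 : ℚ) ^ (1 + l)) * (-1 : ℚ) ^ (1 + l) = 1 := by
      rw [← mul_pow]; norm_num
    linear_combination (-(-1 : ℚ) ^ j) * this
  have e3 : (4 : ℚ) ^ (l + 1) = 2 * 2 ^ (2 * l + 1) := by
    rw [show (4 : ℚ) = 2 ^ 2 by norm_num, ← pow_mul]; ring
  rw [e3, ← h1, ← h2]
  set A := ((2 * (j + (l + 1 + r)) + 1).choose (2 * (j + 1 + l)) : ℚ)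
  set B := ((2 * (j + 1 + l)).factorial : ℚ)
  set C := ((2 * (l + 1 + r) + 1).choose (2 * (l + 1)) : ℚ)
  set D := ((2 * (l + 1)).factorial : ℚ)
  set F := ((2 * r + 1).factorial : ℚ)
  have hC : C ≠ 0 := by
    intro h; rw [h] at h2; simp at h2; exact f3 h2.symm
  rw [← e2]
  field_simp

private theorem key (j p : ℕ) :
    ((-1 : ℚ) ^ j * ((2 * j).factorial : ℚ) * ((2 * (j + p) + 1).choose (2 * j) : ℚ)) *
        (((j + p : ℕ) : ℚ) - (j : ℚ)) +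
      ∑ i ∈ Finset.Ico (j + 1) (j + p + 1), ((-1 : ℚ) ^ i * ((2 * i).factorial : ℚ) *
        ((2 * (j + p) + 1).choose (2 * i) : ℚ)) * be (i - j) = 0 := by
  rw [Finset.sum_Ico_eq_sum_range]
  have e0 : j + p + 1 - (j + 1) = p := by omega
  rw [e0]
  have h1 : ∑ l ∈ Finset.range p, ((-1 : ℚ) ^ (j + 1 + l) * ((2 * (j + 1 + l)).factorial : ℚ) *
        ((2 * (j + p) + 1).choose (2 * (j + 1 + l)) : ℚ)) * be (j + 1 + l - j) =
      ∑ l ∈ Finset.range p, (-(-1 : ℚ) ^ j * ((2 * (j + p) + 1).factorial : ℚ) /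
        (2 * ((2 * p + 1).factorial : ℚ))) *
        (((2 * p + 1).choose (2 * (l + 1)) : ℚ) * 4 ^ (l + 1) * bernoulli (2 * (l + 1))) := by
    refine Finset.sum_congr rfl fun l hl => ?_
    obtain ⟨r, hr⟩ : ∃ r, p = l + 1 + r := ⟨p - (l + 1), by
      have := Finset.mem_range.mp hl; omega⟩
    rw [hr]
    exact term j l r
  have h2 : ∑ l ∈ Finset.range p,
      ((2 * p + 1).choose (2 * (l + 1)) : ℚ) * 4 ^ (l + 1) * bernoulli (2 * (l + 1)) =
      2 * (p : ℚ) := by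
    have h := bern_sum p
    rw [Finset.sum_range_succ'] at h
    simp only [mul_zero, Nat.choose_zero_right, Nat.cast_one, pow_zero, one_mul,
      bernoulli_zero] at h
    linarith
  rw [h1, ← Finset.mul_sum, h2]
  have h3 := choose_cast (2 * (j + p) + 1) (2 * j) (2 * p + 1) (by ring)
  have f3 : ((2 * p + 1).factorial : ℚ) ≠ 0 := by exact_mod_cast Nat.factorial_ne_zero _
  rw [← h3]
  push_cast
  field_simp
  ring

theorem ident (c : ℕ → ℚ) (Z : ℕ → ℂ) (q : ℕ) :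
    ∑ i ∈ Finset.Icc 1 q, ((-1 : ℂ) ^ i * ((2 * i).factorial : ℂ) *
      ((2 * q + 1).choose (2 * i) : ℂ)) * (((q : ℂ) + (c i : ℂ)) * Z i - Rr c Z i) = 0 := by
  set a : ℕ → ℂ := fun i => (-1 : ℂ) ^ i * ((2 * i).factorial : ℂ) *
      ((2 * q + 1).choose (2 * i) : ℂ) with ha
  have h1 : ∑ i ∈ Finset.Icc 1 q, a i * (((q : ℂ) + (c i : ℂ)) * Z i - Rr c Z i) =
      ∑ i ∈ Finset.Icc 1 q, a i * ((q : ℂ) - (i : ℂ)) * Z i +
      ∑ i ∈ Finset.Icc 1 q, ∑ j ∈ Finset.Ico 1 i, a i * ((be (i - j) : ℚ) : ℂ) * Z j := by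
    rw [← Finset.sum_add_distrib]
    refine Finset.sum_congr rfl fun i _ => ?_
    rw [Rr, mul_sub, mul_sub, Finset.mul_sum]
    have : ∀ j ∈ Finset.Ico 1 i, a i * (((be (i - j) : ℚ) : ℂ) * Z j) =
        a i * ((be (i - j) : ℚ) : ℂ) * Z j := fun j _ => by ring
    rw [Finset.sum_congr rfl this]
    ring
  have h2 : ∑ i ∈ Finset.Icc 1 q, ∑ j ∈ Finset.Ico 1 i, a i * ((be (i - j) : ℚ) : ℂ) * Z j =
      ∑ j ∈ Finset.Icc 1 q, ∑ i ∈ Finset.Ico (j + 1) (q + 1),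
        a i * ((be (i - j) : ℚ) : ℂ) * Z j := by
    refine Finset.sum_comm' ?_
    intro i j
    simp only [Finset.mem_Icc, Finset.mem_Ico]
    omega
  have h3 : ∀ j ∈ Finset.Icc 1 q, a j * ((q : ℂ) - (j : ℂ)) * Z j +
      ∑ i ∈ Finset.Ico (j + 1) (q + 1), a i * ((be (i - j) : ℚ) : ℂ) * Z j = 0 := by
    intro j hj
    obtain ⟨p, hp⟩ : ∃ p, q = j + p := ⟨q - j, by have := Finset.mem_Icc.mp hj; omega⟩
    have hk := key j p
    rw [← hp] at hk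
    have hk' : a j * ((q : ℂ) - (j : ℂ)) +
        ∑ i ∈ Finset.Ico (j + 1) (q + 1), a i * ((be (i - j) : ℚ) : ℂ) = 0 := by
      have := congrArg (fun x : ℚ => (x : ℂ)) hk
      push_cast at this
      simpa [ha] using this
    rw [← Finset.sum_mul, ← add_mul, hk', zero_mul]
  rw [h1, h2, ← Finset.sum_add_distrib]
  exact Finset.sum_eq_zero h3

end Pool.Agent.Work.MP_4d52ff_nt.EP
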