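import Pool.Agent.Work.MP_4d52ff_nt.EP.Sys

/-!
MODULE Sq (size M).  The square case is impossible.

PROOF.  Put `N = x - i1 + 1`, `I = Icc i1 x`,
`T = (I.filter (v (R i) = M)).image (2 * ·) ∪ (I.filter (v (Z i) = M)).image (2 * · + 1)` (disjoint, both maps
injective, so `T.card = N` by `hcard`), `m a = 2 * (i1 + a) + 1`.
`al t = 1, be t = 0` for `t` even, `al t = t / 2`, `be t = (t - 2 + 2 c_i) / 2` for `t = 2 i + 1` odd
(`t - 2 + 2 c_i = 2 i - 1 + 2 c_i ≥ 0` by `hc`).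
`hdom` of `sys`: the elements of `T` that are `≤ 2 (i1 + a) + 1` are the `2 i` and `2 i + 1` with `i ≤ i1 + a`; so their
number is the right hand side of `hdom` for `y = i1 + a`.
`y (2 i) = - (-1)^i (2 i)! R i`, `y (2 i + 1) = (-1)^i (2 i)! Z i`.
With `m = 2 q + 1` one has `q C(m, 2i) = ((2i+1) C(m, 2i+1) + (2i-1) C(m, 2i)) / 2`: indeed
`(2i+1) C(m,2i+1) = (m - 2i) C(m,2i)` (`Nat.choose_succ_right_eq`), `m = 2q+1` (both sides 0 if `2i > m`).  So
`(q + c_i) C(m, 2i) = al (2i+1) C(m, 2i+1) + be (2i+1) C(m, 2i)`.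
Hence, for `q = i1 + a`, the sum in `hy` of `sys` equals
`∑ i ∈ I, (-1)^i (2i)! [ (q + c_i) C(m,2i) Z_i·1(v Z_i = M) - C(m,2i) R_i·1(v R_i = M) ]`.
By `hid` (the terms with `i > q` in `I` vanish since `C(2q+1, 2i) = 0` for `2 i > 2 q + 1`, and terms with `i < i1` are
small by `hlow`) it is minus a sum of terms `(rational number) * Z_i` or `(rational number) * R_i` with
`v < M`, so its valuation is `< M` (`Valuation.map_sum_lt`, `Valuation.map_sub_lt`, `hv`).
`sys` gives `v (y t) < M` for all `t ∈ T`; `T` is nonempty (`N ≥ 1`); for `t = 2 i`: `v (y t) = v (R i) = M` since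
`v` of a nonzero rational is `1` (`v q ≤ 1` and `v q⁻¹ ≤ 1`), contradiction; same for `t = 2 i + 1`.
-/

set_option autoImplicit false

namespace Pool.Agent.Work.MP_4d52ff_nt.EP

private theorem v_rat {Γ : Type} [LinearOrderedCommGroupWithZero Γ] (v : Valuation ℂ Γ)
    (hv : ∀ q : ℚ, v (q : ℂ) ≤ 1) (q : ℚ) (hq : q ≠ 0) : v (q : ℂ) = 1 := by
  apply le_antisymm (hv q)
  have h1 := hv q⁻¹
  rw [Rat.cast_inv, map_inv₀] at h1
  have h2 : v (q : ℂ) ≠ 0 := by
    rw [Valuation.ne_zero_iff]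
    exact_mod_cast hq
  have h3 : (1 : Γ) = v (q : ℂ) * (v (q : ℂ))⁻¹ := (mul_inv_cancel₀ h2).symm
  rw [h3]
  calc v (q : ℂ) * (v (q : ℂ))⁻¹ ≤ v (q : ℂ) * 1 := mul_le_mul_right h1 _
    _ = v (q : ℂ) := mul_one _

private def gg (i : ℕ) : ℚ := (-1) ^ i * ((2 * i).factorial : ℚ)

private theorem gg_ne (i : ℕ) : gg i ≠ 0 := by
  unfold gg
  have : ((2 * i).factorial : ℚ) ≠ 0 := by exact_mod_cast (Nat.factorial_pos _).ne'
  exact mul_ne_zero (pow_ne_zero _ (by norm_num)) this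

private theorem choose_id (q i : ℕ) (c : ℚ) :
    ((2 * i + 1 : ℕ) : ℚ) / 2 * ((2 * q + 1).choose (2 * i + 1) : ℚ) +
      (((2 * i + 1 : ℕ) : ℚ) - 2 + 2 * c) / 2 * ((2 * q + 1).choose (2 * i) : ℚ) =
      ((q : ℚ) + c) * ((2 * q + 1).choose (2 * i) : ℚ) := by
  have h1 : ((2 * q + 1).choose (2 * i + 1) : ℚ) * ((2 * i + 1 : ℕ) : ℚ) =
      ((2 * q + 1).choose (2 * i) : ℚ) * ((2 * q + 1 : ℕ) - (2 * i : ℕ)) := by
    rcases le_or_gt (2 * i) (2 * q + 1) with h | h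
    · have h2 := Nat.choose_succ_right_eq (2 * q + 1) (2 * i)
      rw [← Nat.cast_sub h]
      exact_mod_cast h2
    · rw [Nat.choose_eq_zero_of_lt h, Nat.choose_eq_zero_of_lt (by omega)]
      simp
  push_cast at h1 ⊢
  linear_combination h1 / 2

open Classical in
theorem sq {Γ : Type} [LinearOrderedCommGroupWithZero Γ] (v : Valuation ℂ Γ)
    (hv : ∀ q : ℚ, v (q : ℂ) ≤ 1) (M : Γ) (hM : M ≠ 0) (c : ℕ → ℚ)
    (hc : ∀ i : ℕ, 1 ≤ i → 0 ≤ 2 * (i : ℚ) - 1 + 2 * c i) (Z R : ℕ → ℂ)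
    (hid : ∀ q : ℕ, ∑ i ∈ Finset.Icc 1 q, ((-1 : ℂ) ^ i * ((2 * i).factorial : ℂ) *
      ((2 * q + 1).choose (2 * i) : ℂ)) * (((q : ℂ) + (c i : ℂ)) * Z i - R i) = 0)
    (i1 x : ℕ) (hi1 : 1 ≤ i1) (hx : i1 ≤ x)
    (hlow : ∀ j, 1 ≤ j → j < i1 → v (Z j) < M ∧ v (R j) < M)
    (hup : ∀ j, 1 ≤ j → j ≤ x → v (Z j) ≤ M ∧ v (R j) ≤ M)
    (hcard : ((Finset.Icc i1 x).filter (fun i => v (Z i) = M)).card +
      ((Finset.Icc i1 x).filter (fun i => v (R i) = M)).card = x - i1 + 1)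
    (hdom : ∀ y, i1 ≤ y → y ≤ x → y - i1 + 1 ≤
      ((Finset.Icc i1 y).filter (fun i => v (Z i) = M)).card +
      ((Finset.Icc i1 y).filter (fun i => v (R i) = M)).card) : False := by
  set A := (Finset.Icc i1 x).filter (fun i => v (R i) = M) with hA
  set B := (Finset.Icc i1 x).filter (fun i => v (Z i) = M) with hB
  have inj1 : Function.Injective (fun i : ℕ => 2 * i) := fun a b h => by
    simp only at h
    omega
  have inj2 : Function.Injective (fun i : ℕ => 2 * i + 1) := fun a b h => by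
    simp only at h
    omega
  have disj : ∀ P Q : Finset ℕ, Disjoint (P.image (fun i => 2 * i)) (Q.image (fun i => 2 * i + 1)) := by
    intro P Q
    rw [Finset.disjoint_left]
    intro t h1 h2
    obtain ⟨i, _, rfl⟩ := Finset.mem_image.1 h1
    obtain ⟨j, _, hj⟩ := Finset.mem_image.1 h2
    omega
  have cardU : ∀ P Q : Finset ℕ, (P.image (fun i => 2 * i) ∪ Q.image (fun i => 2 * i + 1)).card =
      P.card + Q.card := by
    intro P Q
    rw [Finset.card_union_of_disjoint (disj P Q), Finset.card_image_of_injective _ inj1,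
      Finset.card_image_of_injective _ inj2]
  set T := A.image (fun i => 2 * i) ∪ B.image (fun i => 2 * i + 1) with hT
  have hTc : T.card = x - i1 + 1 := by
    rw [hT, cardU, add_comm, hcard]
  set al : ℕ → ℚ := fun t => if Even t then 1 else (t : ℚ) / 2 with hal
  set be : ℕ → ℚ := fun t => if Even t then 0 else ((t : ℚ) - 2 + 2 * c (t / 2)) / 2 with hbe
  set y : ℕ → ℂ := fun t => if Even t then -((gg (t / 2) : ℂ) * R (t / 2)) else
    (gg (t / 2) : ℂ) * Z (t / 2) with hy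
  have odd_ne : ∀ i : ℕ, ¬ Even (2 * i + 1) := fun i => by
    rw [Nat.not_even_iff_odd]
    exact ⟨i, rfl⟩
  have div1 : ∀ i : ℕ, 2 * i / 2 = i := fun i => by omega
  have div2 : ∀ i : ℕ, (2 * i + 1) / 2 = i := fun i => by omega
  have al1 : ∀ i, al (2 * i) = 1 := fun i => by
    simp only [hal]
    rw [if_pos (even_two_mul i)]
  have al2 : ∀ i, al (2 * i + 1) = ((2 * i + 1 : ℕ) : ℚ) / 2 := fun i => by
    simp only [hal]
    rw [if_neg (odd_ne i)]
  have be1 : ∀ i, be (2 * i) = 0 := fun i => by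
    simp only [hbe]
    rw [if_pos (even_two_mul i)]
  have be2 : ∀ i, be (2 * i + 1) = (((2 * i + 1 : ℕ) : ℚ) - 2 + 2 * c i) / 2 := fun i => by
    simp only [hbe]
    rw [if_neg (odd_ne i), div2]
  have y1 : ∀ i, y (2 * i) = -((gg i : ℂ) * R i) := fun i => by
    simp only [hy]
    rw [if_pos (even_two_mul i), div1]
  have y2 : ∀ i, y (2 * i + 1) = (gg i : ℂ) * Z i := fun i => by
    simp only [hy]
    rw [if_neg (odd_ne i), div2]
  have hcase : ∀ t ∈ T, (∃ i ∈ A, t = 2 * i) ∨ ∃ i ∈ B, t = 2 * i + 1 := by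
    intro t ht
    rcases Finset.mem_union.1 ht with h | h
    · obtain ⟨i, hi, rfl⟩ := Finset.mem_image.1 h
      exact Or.inl ⟨i, hi, rfl⟩
    · obtain ⟨i, hi, rfl⟩ := Finset.mem_image.1 h
      exact Or.inr ⟨i, hi, rfl⟩
  have key := sys v hv M hM T al be (fun t ht => ?_) (fun t ht => ?_) (x - i1 + 1) hTc
    (fun a => 2 * (i1 + a) + 1) (fun a b hab => ?_) (fun a => ?_) y (fun a => ?_)
  · -- conclusion
    have hne : T.Nonempty := by
      rw [← Finset.card_pos, hTc]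
      omega
    obtain ⟨t, ht⟩ := hne
    have h1 := key t ht
    rcases hcase t ht with ⟨i, hi, rfl⟩ | ⟨i, hi, rfl⟩
    · rw [y1, Valuation.map_neg, map_mul, v_rat v hv _ (gg_ne i), one_mul,
        (Finset.mem_filter.1 hi).2] at h1
      exact lt_irrefl _ h1
    · rw [y2, map_mul, v_rat v hv _ (gg_ne i), one_mul, (Finset.mem_filter.1 hi).2] at h1
      exact lt_irrefl _ h1
  · rcases hcase t ht with ⟨i, hi, rfl⟩ | ⟨i, hi, rfl⟩
    · rw [al1]
      exact one_pos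
    · rw [al2]
      positivity
  · rcases hcase t ht with ⟨i, hi, rfl⟩ | ⟨i, hi, rfl⟩
    · rw [be1]
    · rw [be2]
      have h1 := hc i (hi1.trans (Finset.mem_Icc.1 (Finset.mem_filter.1 hi).1).1)
      push_cast
      linarith
  · have : (a : ℕ) < b := hab
    simp only
    omega
  · -- domination
    have ha : (a : ℕ) < x - i1 + 1 := a.2
    have h1 := hdom (i1 + a) (by omega) (by omega)
    have h2 : i1 + (a : ℕ) - i1 + 1 = a + 1 := by omega
    rw [h2] at h1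
    have h1' := h1.trans (le_of_eq (add_comm _ _))
    rw [← cardU] at h1'
    refine h1'.trans (Finset.card_le_card ?_)
    intro t ht
    rw [Finset.mem_filter]
    rcases Finset.mem_union.1 ht with h | h
    · obtain ⟨i, hi, rfl⟩ := Finset.mem_image.1 h
      obtain ⟨hi2, hi3⟩ := Finset.mem_filter.1 hi
      obtain ⟨hi4, hi5⟩ := Finset.mem_Icc.1 hi2
      refine ⟨Finset.mem_union_left _ (Finset.mem_image.2 ⟨i, Finset.mem_filter.2
        ⟨Finset.mem_Icc.2 ⟨hi4, by omega⟩, hi3⟩, rfl⟩), by omega⟩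
    · obtain ⟨i, hi, rfl⟩ := Finset.mem_image.1 h
      obtain ⟨hi2, hi3⟩ := Finset.mem_filter.1 hi
      obtain ⟨hi4, hi5⟩ := Finset.mem_Icc.1 hi2
      refine ⟨Finset.mem_union_right _ (Finset.mem_image.2 ⟨i, Finset.mem_filter.2
        ⟨Finset.mem_Icc.2 ⟨hi4, by omega⟩, hi3⟩, rfl⟩), by omega⟩
  · -- the equations
    have ha : (a : ℕ) < x - i1 + 1 := a.2
    set q : ℕ := i1 + a with hq
    have hqx : q ≤ x := by omega
    have e1 : ∑ t ∈ T, ((al t * (((2 * q + 1).choose t : ℕ) : ℚ) +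
        be t * (((2 * q + 1).choose (t - 1) : ℕ) : ℚ) : ℚ) : ℂ) * y t =
        ∑ i ∈ A, -((((2 * q + 1).choose (2 * i) : ℚ) * gg i : ℚ) : ℂ) * R i +
        ∑ i ∈ B, ((((q : ℚ) + c i) * ((2 * q + 1).choose (2 * i) : ℚ) * gg i : ℚ) : ℂ) * Z i := by
      rw [hT, Finset.sum_union (disj A B), Finset.sum_image (fun a _ b _ h => inj1 h),
        Finset.sum_image (fun a _ b _ h => inj2 h)]
      congr 1
      · refine Finset.sum_congr rfl fun i _ => ?_
        rw [al1, be1, y1]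
        push_cast
        ring
      · refine Finset.sum_congr rfl fun i _ => ?_
        rw [al2, be2, y2, Nat.add_sub_cancel, choose_id]
        push_cast
        ring
    have e2 : ∑ i ∈ Finset.Icc 1 x, ((((q : ℚ) + c i) * ((2 * q + 1).choose (2 * i) : ℚ) * gg i : ℚ) : ℂ) * Z i -
        ∑ i ∈ Finset.Icc 1 x, ((((2 * q + 1).choose (2 * i) : ℚ) * gg i : ℚ) : ℂ) * R i = 0 := by
      rw [← Finset.sum_sub_distrib]
      have h3 := hid q
      rw [← h3]
      symm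
      have h4 : ∀ i ∈ Finset.Icc 1 q, ((-1 : ℂ) ^ i * ((2 * i).factorial : ℂ) *
          ((2 * q + 1).choose (2 * i) : ℂ)) * (((q : ℂ) + (c i : ℂ)) * Z i - R i) =
          ((((q : ℚ) + c i) * ((2 * q + 1).choose (2 * i) : ℚ) * gg i : ℚ) : ℂ) * Z i -
          ((((2 * q + 1).choose (2 * i) : ℚ) * gg i : ℚ) : ℂ) * R i := by
        intro i _
        unfold gg
        push_cast
        ring
      rw [Finset.sum_congr rfl h4]
      refine Finset.sum_subset (Finset.Icc_subset_Icc_right hqx) fun i hi hi' => ?_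
      have h5 : q < i := by
        rw [Finset.mem_Icc] at hi hi'
        by_contra h6
        exact hi' ⟨hi.1, by omega⟩
      rw [Nat.choose_eq_zero_of_lt (by omega)]
      simp
    have hA' : A = (Finset.Icc 1 x).filter (fun i => i1 ≤ i ∧ v (R i) = M) := by
      ext i
      simp only [hA, Finset.mem_filter, Finset.mem_Icc]
      constructor
      · rintro ⟨⟨h1, h2⟩, h3⟩
        exact ⟨⟨by omega, h2⟩, h1, h3⟩
      · rintro ⟨⟨h1, h2⟩, h3, h4⟩
        exact ⟨⟨h3, h2⟩, h4⟩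
    have hB' : B = (Finset.Icc 1 x).filter (fun i => i1 ≤ i ∧ v (Z i) = M) := by
      ext i
      simp only [hB, Finset.mem_filter, Finset.mem_Icc]
      constructor
      · rintro ⟨⟨h1, h2⟩, h3⟩
        exact ⟨⟨by omega, h2⟩, h1, h3⟩
      · rintro ⟨⟨h1, h2⟩, h3, h4⟩
        exact ⟨⟨h3, h2⟩, h4⟩
    have e3 := Finset.sum_filter_add_sum_filter_not (Finset.Icc 1 x)
      (fun i => i1 ≤ i ∧ v (R i) = M)
      (fun i => ((((2 * q + 1).choose (2 * i) : ℚ) * gg i : ℚ) : ℂ) * R i)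
    have e4 := Finset.sum_filter_add_sum_filter_not (Finset.Icc 1 x)
      (fun i => i1 ≤ i ∧ v (Z i) = M)
      (fun i => ((((q : ℚ) + c i) * ((2 * q + 1).choose (2 * i) : ℚ) * gg i : ℚ) : ℂ) * Z i)
    rw [← hA'] at e3
    rw [← hB'] at e4
    have e5 : ∑ t ∈ T, ((al t * (((2 * q + 1).choose t : ℕ) : ℚ) +
        be t * (((2 * q + 1).choose (t - 1) : ℕ) : ℚ) : ℚ) : ℂ) * y t =
        ∑ i ∈ (Finset.Icc 1 x).filter (fun i => ¬ (i1 ≤ i ∧ v (R i) = M)),
          ((((2 * q + 1).choose (2 * i) : ℚ) * gg i : ℚ) : ℂ) * R i -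
        ∑ i ∈ (Finset.Icc 1 x).filter (fun i => ¬ (i1 ≤ i ∧ v (Z i) = M)),
          ((((q : ℚ) + c i) * ((2 * q + 1).choose (2 * i) : ℚ) * gg i : ℚ) : ℂ) * Z i := by
      rw [e1]
      simp only [neg_mul, Finset.sum_neg_distrib]
      linear_combination e2 - e3 + e4
    have small : ∀ (r : ℚ) (z : ℂ), v z < M → v ((r : ℂ) * z) < M := by
      intro r z hz
      rw [map_mul]
      calc v (r : ℂ) * v z ≤ 1 * v z := mul_le_mul_left (hv r) _
        _ < M := by rwa [one_mul]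
    change v (∑ t ∈ T, ((al t * (((2 * q + 1).choose t : ℕ) : ℚ) +
        be t * (((2 * q + 1).choose (t - 1) : ℕ) : ℚ) : ℚ) : ℂ) * y t) < M
    rw [e5]
    apply Valuation.map_sub_lt
    · refine Valuation.map_sum_lt v hM fun i hi => small _ _ ?_
      rw [Finset.mem_filter, Finset.mem_Icc] at hi
      obtain ⟨⟨h1, h2⟩, h3⟩ := hi
      rcases lt_or_ge i i1 with h4 | h4
      · exact (hlow i h1 h4).2
      · exact lt_of_le_of_ne (hup i h1 h2).2 fun h5 => h3 ⟨h4, h5⟩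
    · refine Valuation.map_sum_lt v hM fun i hi => small _ _ ?_
      rw [Finset.mem_filter, Finset.mem_Icc] at hi
      obtain ⟨⟨h1, h2⟩, h3⟩ := hi
      rcases lt_or_ge i i1 with h4 | h4
      · exact (hlow i h1 h4).1
      · exact lt_of_le_of_ne (hup i h1 h2).1 fun h5 => h3 ⟨h4, h5⟩

end Pool.Agent.Work.MP_4d52ff_nt.EP
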