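import Pool.Agent.Work.MP_4d52ff_nt.EP.Defs
import Pool.Agent.Work.MP_4d52ff_nt.EP.Sq
import Pool.Agent.Work.MP_4d52ff_nt.EP.Ident

/-!
MODULE Blocks (size M).  Counting in blocks of the running maximum.

`M : ℕ → Γ` is the running maximum of `v (Z j)`: `v (Z j) ≤ M i` for `1 ≤ j ≤ i` and it is attained; `M` is monotone on
`i ≥ 1`.

PROOF.  `first` (first passage).  Let `i1 ≤ x`, `M` a value with `v (Z i1) = M`, `v (Z j) < M` for `j < i1`,
`v (Z j) ≤ M` for `j ≤ x`.  Then `x - i1 + 2 ≤ #{i ∈ [i1,x] : v (Z i) = M} + #{i ∈ [i1,x] : v (Rr c Z i) = M} =: cnt x`.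
`v (Rr c Z i) ≤ max_{j ≤ i} v (Z j)` since rational numbers have `v ≤ 1`; so `v (Rr c Z j) < M` for `j < i1`.
Induction on `x`.  `x = i1`: `v (Rr c Z i1) = v ((i1 + c_{i1}) Z i1) = M` since the other terms are smaller and
`i1 + c_{i1} ≥ 1/2` is a nonzero rational (`Valuation.map_sub_eq_of_lt_left` or similar), so `cnt = 2`.
Step: `cnt (x+1) ≥ cnt x ≥ x - i1 + 2 = (x+1) - i1 + 1`; if `cnt (x+1) = (x+1) - i1 + 1` then `sq` with `hid = ident`,
the induction hypothesis for all `y ≤ x` gives `hdom`, so `False`.  (Use strong induction.)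

`blocks`: strong induction on `n`.  Let `i1` be the least index with `M i1 = M n`; then `v (Z i1) = M n`,
`v (Z j) ≤ M j < M n` for `j < i1`, and `M i = M n` for `i ∈ [i1, n]`.  By `first`, at least `n - i1 + 2` on `[i1, n]`.
If `i1 = 1` done, otherwise add the induction hypothesis for `i1 - 1` (at least `i1` on `[1, i1 - 1]`).
-/

set_option autoImplicit false

namespace Pool.Agent.Work.MP_4d52ff_nt.EP

/-- the reduced double values are bounded by the running maximum -/
theorem rr_le {Γ : Type} [LinearOrderedCommGroupWithZero Γ] (v : Valuation ℂ Γ)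
    (hv : ∀ q : ℚ, v (q : ℂ) ≤ 1) (c : ℕ → ℚ) (Z : ℕ → ℂ) (i : ℕ) (g : Γ) (hi : 1 ≤ i)
    (h : ∀ j, 1 ≤ j → j ≤ i → v (Z j) ≤ g) : v (Rr c Z i) ≤ g := by
  have hmul : ∀ (q : ℚ) (z : ℂ), v z ≤ g → v ((q : ℂ) * z) ≤ g := by
    intro q z hz
    rw [map_mul]
    calc v (q : ℂ) * v z ≤ 1 * g := mul_le_mul' (hv q) hz
      _ = g := one_mul g
  unfold Rr
  refine Valuation.map_sub_le (v := v) ?_ ?_
  · have e : ((i : ℂ) + (c i : ℂ)) = (((i : ℚ) + c i : ℚ) : ℂ) := by push_cast; rfl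
    rw [e]
    exact hmul _ _ (h i hi le_rfl)
  · refine Valuation.map_sum_le v fun j hj => ?_
    rw [Finset.mem_Ico] at hj
    exact hmul _ _ (h j hj.1 hj.2.le)

private theorem rat_one {Γ : Type} [LinearOrderedCommGroupWithZero Γ] (v : Valuation ℂ Γ)
    (hv : ∀ q : ℚ, v (q : ℂ) ≤ 1) (q : ℚ) (hq : q ≠ 0) : v (q : ℂ) = 1 := by
  refine le_antisymm (hv q) ?_
  have h1 := hv q⁻¹
  rw [Rat.cast_inv, map_inv₀] at h1
  have h2 : v (q : ℂ) ≠ 0 := by
    rw [Valuation.ne_zero_iff]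
    exact_mod_cast hq
  have h3 := mul_le_mul_left h1 (v (q : ℂ))
  rw [one_mul] at h3
  rwa [inv_mul_cancel₀ h2] at h3

open Classical in
private theorem first {Γ : Type} [LinearOrderedCommGroupWithZero Γ] (v : Valuation ℂ Γ)
    (hv : ∀ q : ℚ, v (q : ℂ) ≤ 1) (c : ℕ → ℚ)
    (hc : ∀ i : ℕ, 1 ≤ i → 0 ≤ 2 * (i : ℚ) - 1 + 2 * c i) (Z : ℕ → ℂ)
    (g : Γ) (hg : g ≠ 0) (i1 n : ℕ) (hi1 : 1 ≤ i1) (h1 : v (Z i1) = g)
    (hlow : ∀ j, 1 ≤ j → j < i1 → v (Z j) < g ∧ v (Rr c Z j) < g)
    (hup : ∀ j, 1 ≤ j → j ≤ n → v (Z j) ≤ g) :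
    ∀ x, i1 ≤ x → x ≤ n → x - i1 + 2 ≤
      ((Finset.Icc i1 x).filter (fun i => v (Z i) = g)).card +
      ((Finset.Icc i1 x).filter (fun i => v (Rr c Z i) = g)).card := by
  intro x
  induction x using Nat.strong_induction_on with
  | _ x ih =>
    intro hx hxn
    have hupR : ∀ j, 1 ≤ j → j ≤ n → v (Rr c Z j) ≤ g := fun j hj hjn =>
      rr_le v hv c Z j g hj fun l hl hlj => hup l hl (hlj.trans hjn)
    rcases hx.eq_or_lt with rfl | hlt
    · have h2 : v (Rr c Z i1) = g := by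
        have e : ((i1 : ℂ) + (c i1 : ℂ)) = (((i1 : ℚ) + c i1 : ℚ) : ℂ) := by push_cast; rfl
        have hq : ((i1 : ℚ) + c i1) ≠ 0 := by
          have := hc i1 hi1
          intro h0
          linarith
        have h3 : v ((((i1 : ℚ) + c i1 : ℚ) : ℂ) * Z i1) = g := by
          rw [map_mul, rat_one v hv _ hq, one_mul, h1]
        have h4 : v (∑ j ∈ Finset.Ico 1 i1, ((be (i1 - j) : ℚ) : ℂ) * Z j) < g := by
          refine Valuation.map_sum_lt v hg fun j hj => ?_
          rw [Finset.mem_Ico] at hj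
          rw [map_mul]
          calc v ((be (i1 - j) : ℚ) : ℂ) * v (Z j) ≤ 1 * v (Z j) :=
                mul_le_mul' (hv _) le_rfl
            _ = v (Z j) := one_mul _
            _ < g := (hlow j hj.1 hj.2).1
        unfold Rr
        rw [e, Valuation.map_sub_eq_of_lt_left v (by rw [h3]; exact h4), h3]
      have e1 : (Finset.Icc i1 i1).filter (fun i => v (Z i) = g) = {i1} := by
        rw [Finset.Icc_self, Finset.filter_singleton, if_pos h1]
      have e2 : (Finset.Icc i1 i1).filter (fun i => v (Rr c Z i) = g) = {i1} := by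
        rw [Finset.Icc_self, Finset.filter_singleton, if_pos h2]
      rw [e1, e2, Finset.card_singleton]
      omega
    · have h5 := ih (x - 1) (by omega) (by omega) (by omega)
      have hsub : Finset.Icc i1 (x - 1) ⊆ Finset.Icc i1 x :=
        Finset.Icc_subset_Icc le_rfl (by omega)
      have h6 := Finset.card_le_card (Finset.filter_subset_filter (fun i => v (Z i) = g) hsub)
      have h7 := Finset.card_le_card
        (Finset.filter_subset_filter (fun i => v (Rr c Z i) = g) hsub)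
      by_contra hcon
      have hcard : ((Finset.Icc i1 x).filter (fun i => v (Z i) = g)).card +
          ((Finset.Icc i1 x).filter (fun i => v (Rr c Z i) = g)).card = x - i1 + 1 := by
        omega
      refine sq v hv g hg c hc Z (Rr c Z) (ident c Z) i1 x hi1 hx hlow
        (fun j hj hjx => ⟨hup j hj (hjx.trans hxn), hupR j hj (hjx.trans hxn)⟩) hcard ?_
      intro y hy hyx
      rcases hyx.eq_or_lt with rfl | hyx
      · exact hcard.ge
      · have := ih y hyx hy (by omega)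
        omega

open Classical in
theorem blocks {Γ : Type} [LinearOrderedCommGroupWithZero Γ] (v : Valuation ℂ Γ)
    (hv : ∀ q : ℚ, v (q : ℂ) ≤ 1) (c : ℕ → ℚ)
    (hc : ∀ i : ℕ, 1 ≤ i → 0 ≤ 2 * (i : ℚ) - 1 + 2 * c i) (Z : ℕ → ℂ) (hZ : ∀ i, 1 ≤ i → Z i ≠ 0)
    (M : ℕ → Γ) (hM1 : ∀ i j, 1 ≤ j → j ≤ i → v (Z j) ≤ M i)
    (hM2 : ∀ i, 1 ≤ i → ∃ j, 1 ≤ j ∧ j ≤ i ∧ v (Z j) = M i) (n : ℕ) (hn : 1 ≤ n) :
    n + 1 ≤ ((Finset.Icc 1 n).filter (fun i => v (Z i) = M i)).card +
      ((Finset.Icc 1 n).filter (fun i => v (Rr c Z i) = M i)).card := by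
  induction n using Nat.strong_induction_on with
  | _ n ih =>
    have hex : ∃ i, 1 ≤ i ∧ M i = M n := ⟨n, hn, rfl⟩
    set i1 := Nat.find hex with hi1d
    obtain ⟨hi1, hMi1⟩ := Nat.find_spec hex
    rw [← hi1d] at hi1 hMi1
    have hin : i1 ≤ n := Nat.find_min' hex ⟨hn, rfl⟩
    have hmono : ∀ i j, 1 ≤ i → i ≤ j → M i ≤ M j := by
      intro i j hi hij
      obtain ⟨l, hl, hli, hle⟩ := hM2 i hi
      rw [← hle]
      exact hM1 j l hl (hli.trans hij)
    have hlt : ∀ j, 1 ≤ j → j < i1 → M j < M n := by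
      intro j hj hji
      refine lt_of_le_of_ne (hmono j n hj (by omega)) fun h => ?_
      exact Nat.find_min hex hji ⟨hj, h⟩
    have hZi1 : v (Z i1) = M n := by
      obtain ⟨j, hj, hji, hje⟩ := hM2 i1 hi1
      rw [hMi1] at hje
      rcases hji.eq_or_lt with h | h
      · rw [← h]; exact hje
      · exact absurd hje (ne_of_lt (lt_of_le_of_lt (hM1 j j hj le_rfl) (hlt j hj h)))
    have hg : M n ≠ 0 := by
      rw [← hZi1, Valuation.ne_zero_iff]
      exact hZ i1 hi1
    have hR : ∀ j, 1 ≤ j → v (Rr c Z j) ≤ M j := fun j hj =>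
      rr_le v hv c Z j (M j) hj fun l hl hlj => hM1 j l hl hlj
    have h1 := first v hv c hc Z (M n) hg i1 n hi1 hZi1
      (fun j hj hji => ⟨lt_of_le_of_lt (hM1 j j hj le_rfl) (hlt j hj hji),
        lt_of_le_of_lt (hR j hj) (hlt j hj hji)⟩)
      (fun j hj hjn => hM1 n j hj hjn) n hin le_rfl
    have hMe : ∀ i ∈ Finset.Icc i1 n, M i = M n := by
      intro i hi
      rw [Finset.mem_Icc] at hi
      refine le_antisymm (hmono i n (by omega) hi.2) ?_
      rw [← hMi1]
      exact hmono i1 i hi1 hi.1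
    have e1 : (Finset.Icc i1 n).filter (fun i => v (Z i) = M n) =
        (Finset.Icc i1 n).filter (fun i => v (Z i) = M i) :=
      Finset.filter_congr fun i hi => by rw [hMe i hi]
    have e2 : (Finset.Icc i1 n).filter (fun i => v (Rr c Z i) = M n) =
        (Finset.Icc i1 n).filter (fun i => v (Rr c Z i) = M i) :=
      Finset.filter_congr fun i hi => by rw [hMe i hi]
    rw [e1, e2] at h1
    rcases Nat.lt_or_ge 1 i1 with h | h
    · have h2 := ih (i1 - 1) (by omega) (by omega)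
      have hdis : Disjoint (Finset.Icc 1 (i1 - 1)) (Finset.Icc i1 n) := by
        rw [Finset.disjoint_left]
        intro a ha hb
        rw [Finset.mem_Icc] at ha hb
        omega
      have hun : Finset.Icc 1 n = Finset.Icc 1 (i1 - 1) ∪ Finset.Icc i1 n := by
        ext a
        rw [Finset.mem_union, Finset.mem_Icc, Finset.mem_Icc, Finset.mem_Icc]
        omega
      rw [hun, Finset.filter_union, Finset.filter_union,
        Finset.card_union_of_disjoint (Finset.disjoint_filter_filter hdis),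
        Finset.card_union_of_disjoint (Finset.disjoint_filter_filter hdis)]
      omega
    · have h3 : i1 = 1 := by omega
      rw [h3] at h1
      omega

end Pool.Agent.Work.MP_4d52ff_nt.EP
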