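import Pool.Agent.Work.MP_4d52ff_nt.R.Defs

/-!
MP_4d52ff_nt, EulerPairs.  Definitions (complete, nothing to prove).

`be l = ζ(2l)/π^(2l)` (a positive rational number), `Rr c Z i = (i + c_i) Z_i - ∑_{1 ≤ j < i} be (i-j) Z_j`.
With `Z_i = π^(-(2i+1)) ζ(2i+1)` Euler's formula says `Rr c Z i = π^(-(2i+1)) (ζ(2i,1) + c_i ζ(2i+1))`.
-/

set_option autoImplicit false

namespace Pool.Agent.Work.MP_4d52ff_nt.EP

/-- `ζ(2l)/π^(2l)` -/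
noncomputable def be (l : ℕ) : ℚ :=
  (-1) ^ (l + 1) * 2 ^ (2 * l - 1) * bernoulli (2 * l) / ((2 * l).factorial : ℚ)

/-- the reduced double values -/
noncomputable def Rr (c : ℕ → ℚ) (Z : ℕ → ℂ) (i : ℕ) : ℂ :=
  ((i : ℂ) + (c i : ℂ)) * Z i - ∑ j ∈ Finset.Ico 1 i, ((be (i - j) : ℚ) : ℂ) * Z j

end Pool.Agent.Work.MP_4d52ff_nt.EP
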