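import Pool.Agent.Work.MP_4d52ff_nt.EP.SumF


/-!
MODULE Eul (size S-M).  Euler's formula.

PROOF.  `w = 2 i + 1`.  For `2 ≤ k ≤ w - 2`: `zetaL [k] * zetaL [w-k] = zetaL [k, w-k] + zetaL [w-k, k] + zetaL [w]`
(`zetaL_mul`, `stuffle_cons_cons`, `stuffle_nil`, `stuffle_cons_nil`; see also `R.f_mul2` in R/Odd2.lean).  Sum over `k ∈ Ico 2 (w-1)`: by
the reflection `k ↦ w - k` the two double sums agree, so
`∑_{k=2}^{w-2} ζ(k) ζ(w-k) = 2 ∑_{k=2}^{w-2} ζ(k,w-k) + (w-3) ζ(w) = 2 (ζ(w) - ζ(w-1,1)) + (w-3) ζ(w)` by `sum_formula`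
(its term `a = w - 1` is `ζ(w-1,1)`).  The left hand side: `k` odd, `k = 2 j + 1`, or `w - k = 2 j + 1` odd,
`1 ≤ j ≤ i - 1`: `= 2 ∑_{j=1}^{i-1} ζ(2j+1) ζ(2(i-j))`.
So `ζ(2i,1) = i ζ(2i+1) - ∑_{j=1}^{i-1} ζ(2(i-j)) ζ(2j+1)`.
-/

set_option autoImplicit false

namespace Pool.Agent.Work.MP_4d52ff_nt.EP

private theorem mul2 (a b : ℕ) (ha : 2 ≤ a) (hb : 2 ≤ b) :
    zetaL [a] * zetaL [b] = zetaL [a, b] + zetaL [b, a] + zetaL [a + b] := by
  rw [zetaL_mul [a] [b] ((Adm_cons a []).2 ⟨ha, by simp⟩) ((Adm_cons b []).2 ⟨hb, by simp⟩),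
    stuffle_cons_cons, stuffle_nil, stuffle_cons_nil, stuffle_nil]
  simp
  ring

private theorem split2 (g : ℕ → ℝ) (i : ℕ) (hi : 1 ≤ i) :
    ∑ k ∈ Finset.Ico 2 (2 * i), g k = ∑ j ∈ Finset.Ico 1 i, (g (2 * j) + g (2 * j + 1)) := by
  induction i, hi using Nat.le_induction with
  | base => simp
  | succ m hm ih =>
    rw [Finset.sum_Ico_succ_top hm, ← ih, show 2 * (m + 1) = 2 * m + 1 + 1 by ring,
      Finset.sum_Ico_succ_top (by omega), Finset.sum_Ico_succ_top (by omega)]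
    ring

theorem euler (i : ℕ) (hi : 1 ≤ i) :
    zetaL [2 * i, 1] = (i : ℝ) * zetaL [2 * i + 1] -
      ∑ j ∈ Finset.Ico 1 i, zetaL [2 * (i - j)] * zetaL [2 * j + 1] := by
  have h1 := sum_formula (2 * i + 1) (by omega)
  rw [Finset.sum_Ico_succ_top (by omega), show 2 * i + 1 - 2 * i = 1 by omega] at h1
  have h2 : ∑ k ∈ Finset.Ico 2 (2 * i), zetaL [k] * zetaL [2 * i + 1 - k] =
      2 * (∑ k ∈ Finset.Ico 2 (2 * i), zetaL [k, 2 * i + 1 - k]) +
        (2 * (i : ℝ) - 2) * zetaL [2 * i + 1] := by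
    have e1 : ∀ k ∈ Finset.Ico 2 (2 * i), zetaL [k] * zetaL [2 * i + 1 - k] =
        zetaL [k, 2 * i + 1 - k] + zetaL [2 * i + 1 - k, k] + zetaL [2 * i + 1] := by
      intro k hk
      rw [Finset.mem_Ico] at hk
      rw [mul2 k (2 * i + 1 - k) hk.1 (by omega), show k + (2 * i + 1 - k) = 2 * i + 1 by omega]
    have e2 : ∑ k ∈ Finset.Ico 2 (2 * i), zetaL [2 * i + 1 - k, k] =
        ∑ k ∈ Finset.Ico 2 (2 * i), zetaL [k, 2 * i + 1 - k] := by
      refine Finset.sum_nbij' (fun k => 2 * i + 1 - k) (fun k => 2 * i + 1 - k) ?_ ?_ ?_ ?_ ?_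
      · intro k hk
        rw [Finset.mem_Ico] at hk ⊢
        omega
      · intro k hk
        rw [Finset.mem_Ico] at hk ⊢
        omega
      · intro k hk
        rw [Finset.mem_Ico] at hk
        show 2 * i + 1 - (2 * i + 1 - k) = k
        omega
      · intro k hk
        rw [Finset.mem_Ico] at hk
        show 2 * i + 1 - (2 * i + 1 - k) = k
        omega
      · intro k hk
        rw [Finset.mem_Ico] at hk
        rw [show 2 * i + 1 - (2 * i + 1 - k) = k by omega]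
    rw [Finset.sum_congr rfl e1, Finset.sum_add_distrib, Finset.sum_add_distrib, e2,
      Finset.sum_const, Nat.card_Ico, nsmul_eq_mul, Nat.cast_sub (by omega)]
    push_cast
    ring
  have h3 : ∑ k ∈ Finset.Ico 2 (2 * i), zetaL [k] * zetaL [2 * i + 1 - k] =
      2 * ∑ j ∈ Finset.Ico 1 i, zetaL [2 * (i - j)] * zetaL [2 * j + 1] := by
    have e0 : ∀ x : ℝ, 2 * x = x + x := two_mul
    rw [split2 (fun k => zetaL [k] * zetaL [2 * i + 1 - k]) i hi, Finset.sum_add_distrib, e0]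
    congr 1
    · refine Finset.sum_nbij' (fun j => i - j) (fun j => i - j) ?_ ?_ ?_ ?_ ?_
      · intro k hk
        rw [Finset.mem_Ico] at hk ⊢
        omega
      · intro k hk
        rw [Finset.mem_Ico] at hk ⊢
        omega
      · intro k hk
        rw [Finset.mem_Ico] at hk
        show i - (i - k) = k
        omega
      · intro k hk
        rw [Finset.mem_Ico] at hk
        show i - (i - k) = k
        omega
      · intro k hk
        rw [Finset.mem_Ico] at hk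
        show zetaL [2 * k] * zetaL [2 * i + 1 - 2 * k] =
          zetaL [2 * (i - (i - k))] * zetaL [2 * (i - k) + 1]
        rw [show i - (i - k) = k by omega, show 2 * i + 1 - 2 * k = 2 * (i - k) + 1 by omega]
    · refine Finset.sum_congr rfl fun k hk => ?_
      rw [Finset.mem_Ico] at hk
      show zetaL [2 * k + 1] * zetaL [2 * i + 1 - (2 * k + 1)] =
        zetaL [2 * (i - k)] * zetaL [2 * k + 1]
      rw [show 2 * i + 1 - (2 * k + 1) = 2 * (i - k) by omega, mul_comm]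
  rw [h3] at h2
  linarith

end Pool.Agent.Work.MP_4d52ff_nt.EP
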