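import Pool.Agent.Work.MP_4d52ff_nt.EP.Defs
import Pool.Agent.Work.MP_4d52ff_nt.EP.Eul
import Pool.Agent.Work.MP_4d52ff_nt.R.EvenZ

/-!
MODULE Red (size S).  `Rr` of the reduced odd zeta values.

PROOF.  `zeta_be`: the proof of `R.zetaL_even` gives exactly this value (Mathlib `hasSum_zeta_nat`; copy it).
`red`: multiply out, `π^(2i+1) * (π^(2j+1))⁻¹ = π^(2(i-j))` for `j < i`, `euler`, `zeta_be`.
`mzv ![2*i, 1] = zetaL [2*i, 1]` and `mzv ![2*i+1] = zetaL [2*i+1]` by `R.mzv_eq` (`List.ofFn`).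
-/

set_option autoImplicit false

namespace Pool.Agent.Work.MP_4d52ff_nt.EP

theorem zeta_be (l : ℕ) (hl : 1 ≤ l) : zetaL [2 * l] = (be l : ℝ) * Real.pi ^ (2 * l) := by
  have h2 : 2 ≤ 2 * l := by omega
  have hA : Adm [2 * l] := by rw [Adm_cons]; exact ⟨h2, by simp⟩
  have h1 := tendsto_H _ hA
  have hs : Summable (fun n : ℕ => ((n : ℝ) ^ (2 * l))⁻¹) :=
    Real.summable_nat_pow_inv.2 (by omega)
  have h3 := hs.hasSum.tendsto_sum_nat
  have h4 : zetaL [2 * l] = ∑' n : ℕ, ((n : ℝ) ^ (2 * l))⁻¹ :=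
    tendsto_nhds_unique h1 (h3.congr (fun N => (H_single (2 * l) N).symm))
  have hk0 : l ≠ 0 := by omega
  have h := (hasSum_zeta_nat hk0).tsum_eq
  have h' : ∑' n : ℕ, ((n : ℝ) ^ (2 * l))⁻¹ = ∑' n : ℕ, 1 / (n : ℝ) ^ (2 * l) := by simp
  rw [h4, h', h]
  unfold be
  push_cast
  ring

theorem mzv_one (i : ℕ) (hi : 1 ≤ i) : R.mzv ![2 * i + 1] = zetaL [2 * i + 1] := by
  have h := R.mzv_eq ![2 * i + 1] (fun j => by fin_cases j; simp)
    (fun _ => by simp; omega)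
  rw [h]
  simp

theorem red (c : ℕ → ℚ) (i : ℕ) (hi : 1 ≤ i) :
    ((R.mzv ![2 * i, 1] + (c i : ℝ) * R.mzv ![2 * i + 1] : ℝ) : ℂ) =
      (Real.pi : ℂ) ^ (2 * i + 1) *
        Rr c (fun j => ((zetaL [2 * j + 1] : ℝ) : ℂ) / (Real.pi : ℂ) ^ (2 * j + 1)) i := by
  have e2 : R.mzv ![2 * i, 1] = zetaL [2 * i, 1] := by
    have h := R.mzv_eq ![2 * i, 1] (fun j => by fin_cases j <;> simp <;> omega)
      (fun _ => by simp; omega)
    rw [h]
    simp [List.ofFn_succ]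
  have hpi : (Real.pi : ℂ) ≠ 0 := Complex.ofReal_ne_zero.2 Real.pi_ne_zero
  rw [e2, mzv_one i hi, euler i hi]
  unfold Rr
  rw [mul_sub, Finset.mul_sum]
  have h1 : ∀ j ∈ Finset.Ico 1 i, (Real.pi : ℂ) ^ (2 * i + 1) *
      (((be (i - j) : ℚ) : ℂ) * (((zetaL [2 * j + 1] : ℝ) : ℂ) / (Real.pi : ℂ) ^ (2 * j + 1))) =
      ((zetaL [2 * (i - j)] * zetaL [2 * j + 1] : ℝ) : ℂ) := by
    intro j hj
    rw [Finset.mem_Ico] at hj
    have hpow : (Real.pi : ℂ) ^ (2 * i + 1) =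
        (Real.pi : ℂ) ^ (2 * (i - j)) * (Real.pi : ℂ) ^ (2 * j + 1) := by
      rw [← pow_add]
      congr 1
      omega
    rw [zeta_be (i - j) (by omega), hpow]
    push_cast
    field_simp
  rw [Finset.sum_congr rfl h1]
  push_cast
  field_simp
  ring

end Pool.Agent.Work.MP_4d52ff_nt.EP
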