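import Pool.Agent.Work.MP_4d52ff_nt.EP.Blocks
import Pool.Agent.Work.MP_4d52ff_nt.EP.Red
import Pool.Agent.Work.MP_4d52ff_nt.R.Val

/-!
MODULE Final (helper86).  The counting theorem.

`Z_j = ζ(2j+1)/π^(2j+1)`, `M i = max_{1 ≤ j ≤ i} v (Z j)`, `g = v π > 1`.  The values `g^(2i+1) M i` are strictly
increasing in `i`, so at most `h` of them are valuations of nonzero elements of `Y`.  For the other `i`,
`ζ(2i+1) ∈ Y` implies `v (Z i) ≠ M i`, and `ζ(2i,1) + c_i ζ(2i+1) ∈ Y` implies `v (Rr c Z i) ≠ M i`.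
-/

set_option autoImplicit false

namespace Pool.Agent.Work.MP_4d52ff_nt.EP

private lemma rat_le {Γ : Type} [LinearOrderedCommGroupWithZero Γ] (v : Valuation ℂ Γ)
    (hv : ∀ a : algebraicClosure ℚ ℂ, a ≠ 0 → v (a : ℂ) = 1) (q : ℚ) : v (q : ℂ) ≤ 1 := by
  by_cases hq : q = 0
  · subst hq
    simp
  · have h1 : (algebraMap ℚ (algebraicClosure ℚ ℂ) q) ≠ 0 := by
      rw [Ne, map_eq_zero]
      exact hq
    have h2 := hv _ h1
    have h3 : ((algebraMap ℚ (algebraicClosure ℚ ℂ) q : algebraicClosure ℚ ℂ) : ℂ) = (q : ℂ) := rfl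
    rw [h3] at h2
    exact h2.le

/-- the running maximum -/
private def rmax {Γ : Type} [LinearOrderedCommGroupWithZero Γ] (f : ℕ → Γ) : ℕ → Γ
  | 0 => 0
  | (i + 1) => max (rmax f i) (f (i + 1))

private lemma rmax_mono {Γ : Type} [LinearOrderedCommGroupWithZero Γ] (f : ℕ → Γ) :
    Monotone (rmax f) := monotone_nat_of_le_succ fun i => by
  rw [rmax]
  exact le_max_left _ _

private lemma le_rmax {Γ : Type} [LinearOrderedCommGroupWithZero Γ] (f : ℕ → Γ) (i j : ℕ)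
    (hj : 1 ≤ j) (hji : j ≤ i) : f j ≤ rmax f i := by
  obtain ⟨k, rfl⟩ : ∃ k, j = k + 1 := ⟨j - 1, by omega⟩
  refine le_trans ?_ (rmax_mono f hji)
  rw [rmax]
  exact le_max_right _ _

private lemma rmax_att {Γ : Type} [LinearOrderedCommGroupWithZero Γ] (f : ℕ → Γ) (i : ℕ)
    (hi : 1 ≤ i) : ∃ j, 1 ≤ j ∧ j ≤ i ∧ f j = rmax f i := by
  induction i with
  | zero => omega
  | succ i ih =>
    rw [rmax]
    rcases le_total (rmax f i) (f (i + 1)) with h | h
    · exact ⟨i + 1, by omega, le_rfl, (max_eq_right h).symm⟩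
    · rcases Nat.eq_zero_or_pos i with h0 | h0
      · subst h0
        refine ⟨1, le_rfl, le_rfl, ?_⟩
        rw [max_eq_left h]
        apply le_antisymm h
        rw [rmax]
        exact zero_le'
      · obtain ⟨j, hj1, hj2, hj3⟩ := ih h0
        exact ⟨j, hj1, by omega, by rw [hj3, max_eq_left h]⟩

open Classical in
theorem pairs (Y : Submodule (algebraicClosure ℚ ℂ) ℂ) (hY : Module.Finite (algebraicClosure ℚ ℂ) Y)
    (c : ℕ → ℚ) (hc : ∀ i : ℕ, 1 ≤ i → 0 ≤ 2 * (i : ℚ) - 1 + 2 * c i) (n : ℕ) (hn : 1 ≤ n) :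
    n + 1 ≤ ((Finset.Icc 1 n).filter (fun i => ((R.mzv ![2 * i + 1] : ℝ) : ℂ) ∉ Y)).card +
      ((Finset.Icc 1 n).filter (fun i =>
        ((R.mzv ![2 * i, 1] + (c i : ℝ) * R.mzv ![2 * i + 1] : ℝ) : ℂ) ∉ Y)).card +
      2 * Module.finrank (algebraicClosure ℚ ℂ) Y := by
  obtain ⟨Γ, hΓ, v, hv, hvpi⟩ := R.exists_val
  have hvq := rat_le v hv
  have hpi : (Real.pi : ℂ) ≠ 0 := by exact_mod_cast Real.pi_ne_zero
  obtain ⟨Z, hZdef⟩ : ∃ Z : ℕ → ℂ, Z = fun j => ((zetaL [2 * j + 1] : ℝ) : ℂ) /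
    (Real.pi : ℂ) ^ (2 * j + 1) := ⟨_, rfl⟩
  have hZ : ∀ i, 1 ≤ i → Z i ≠ 0 := by
    intro i hi
    rw [hZdef]
    refine div_ne_zero ?_ (pow_ne_zero _ hpi)
    have h1 : 0 < zetaL [2 * i + 1] := zetaL_pos _ (by rw [Adm_cons]; exact ⟨by omega, by simp⟩)
    exact_mod_cast h1.ne'
  obtain ⟨M, hM⟩ : ∃ M : ℕ → Γ, M = rmax (fun j => v (Z j)) := ⟨_, rfl⟩
  have hM1 : ∀ i j, 1 ≤ j → j ≤ i → v (Z j) ≤ M i := by
    intro i j h1 h2
    rw [hM]
    exact le_rmax (fun j => v (Z j)) i j h1 h2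
  have hM2 : ∀ i, 1 ≤ i → ∃ j, 1 ≤ j ∧ j ≤ i ∧ v (Z j) = M i := by
    intro i h1
    rw [hM]
    exact rmax_att (fun j => v (Z j)) i h1
  have hMmono : Monotone M := by
    rw [hM]
    exact rmax_mono _
  have hM0 : ∀ i, 1 ≤ i → M i ≠ 0 := by
    intro i hi
    obtain ⟨j, h1, -, h3⟩ := hM2 i hi
    rw [← h3]
    exact (Valuation.ne_zero_iff v).2 (hZ j h1)
  have hmain := blocks v hvq c hc Z hZ M hM1 hM2 n hn
  -- the exceptional indices
  obtain ⟨g, hg⟩ : ∃ g : Γ, g = v (Real.pi : ℂ) := ⟨_, rfl⟩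
  rw [← hg] at hvpi
  have hg0 : g ≠ 0 := (zero_lt_one.trans hvpi).ne'
  have hVf := R.vals_finite v hv Y
  obtain ⟨E, hE⟩ : ∃ E : Finset ℕ, E = (Finset.Icc 1 n).filter
    (fun i => g ^ (2 * i + 1) * M i ∈ R.vals v Y) := ⟨_, rfl⟩
  have hEcard : E.card ≤ Module.finrank (algebraicClosure ℚ ℂ) Y := by
    refine le_trans ?_ hVf.2
    rw [Set.ncard_eq_toFinset_card _ hVf.1]
    refine Finset.card_le_card_of_injOn (fun i => g ^ (2 * i + 1) * M i) ?_ ?_
    · intro i hi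
      have hi' : i ∈ E := hi
      rw [hE, Finset.mem_filter] at hi'
      exact Finset.mem_coe.2 (hVf.1.mem_toFinset.2 hi'.2)
    · intro i hi j hj hij
      have hi' : i ∈ E := hi
      have hj' : j ∈ E := hj
      rw [hE, Finset.mem_filter, Finset.mem_Icc] at hi' hj'
      have key : ∀ a b : ℕ, 1 ≤ a → a < b → g ^ (2 * a + 1) * M a < g ^ (2 * b + 1) * M b := by
        intro a b ha hab
        have h1 : g ^ (2 * a + 1) < g ^ (2 * b + 1) := pow_lt_pow_right₀ hvpi (by omega)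
        have h2 : M a ≤ M b := hMmono hab.le
        have h3 : 0 < M b := zero_lt_iff.2 (hM0 b (by omega))
        calc g ^ (2 * a + 1) * M a ≤ g ^ (2 * a + 1) * M b := mul_le_mul_right h2 _
          _ < g ^ (2 * b + 1) * M b := mul_lt_mul_of_pos_right h1 h3
      rcases lt_trichotomy i j with h | h | h
      · exact absurd hij (key i j hi'.1.1 h).ne
      · exact h
      · exact absurd hij (key j i hj'.1.1 h).ne'
  -- comparison
  have hsub1 : (Finset.Icc 1 n).filter (fun i => v (Z i) = M i) ⊆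
      (Finset.Icc 1 n).filter (fun i => ((R.mzv ![2 * i + 1] : ℝ) : ℂ) ∉ Y) ∪ E := by
    intro i hi
    rw [Finset.mem_filter] at hi
    obtain ⟨hi1, hi2⟩ := hi
    have h1 : 1 ≤ i := (Finset.mem_Icc.1 hi1).1
    rw [Finset.mem_union, Finset.mem_filter, hE, Finset.mem_filter]
    by_cases hmem : ((R.mzv ![2 * i + 1] : ℝ) : ℂ) ∈ Y
    · right
      refine ⟨hi1, ((R.mzv ![2 * i + 1] : ℝ) : ℂ), hmem, ?_, ?_⟩
      · rw [mzv_one i h1]
        have h2 : 0 < zetaL [2 * i + 1] := zetaL_pos _ (by rw [Adm_cons]; exact ⟨by omega, by simp⟩)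
        exact_mod_cast h2.ne'
      · rw [mzv_one i h1, ← hi2, hZdef, hg]
        rw [← map_pow, ← map_mul]
        congr 1
        rw [mul_div_cancel₀]
        exact pow_ne_zero _ hpi
    · exact Or.inl ⟨hi1, hmem⟩
  have hsub2 : (Finset.Icc 1 n).filter (fun i => v (Rr c Z i) = M i) ⊆
      (Finset.Icc 1 n).filter (fun i =>
        ((R.mzv ![2 * i, 1] + (c i : ℝ) * R.mzv ![2 * i + 1] : ℝ) : ℂ) ∉ Y) ∪ E := by
    intro i hi
    rw [Finset.mem_filter] at hi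
    obtain ⟨hi1, hi2⟩ := hi
    have h1 : 1 ≤ i := (Finset.mem_Icc.1 hi1).1
    rw [Finset.mem_union, Finset.mem_filter, hE, Finset.mem_filter]
    by_cases hmem : ((R.mzv ![2 * i, 1] + (c i : ℝ) * R.mzv ![2 * i + 1] : ℝ) : ℂ) ∈ Y
    · right
      have hred := red c i h1
      rw [← hZdef] at hred
      refine ⟨hi1, _, hmem, ?_, ?_⟩
      · rw [hred]
        refine mul_ne_zero (pow_ne_zero _ hpi) ?_
        intro h2
        rw [h2, map_zero] at hi2
        exact hM0 i h1 hi2.symm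
      · rw [hred, map_mul, map_pow, hi2, hg]
    · exact Or.inl ⟨hi1, hmem⟩
  have h1 := (Finset.card_le_card hsub1).trans (Finset.card_union_le _ _)
  have h2 := (Finset.card_le_card hsub2).trans (Finset.card_union_le _ _)
  omega

end Pool.Agent.Work.MP_4d52ff_nt.EP
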