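import Pool.Agent.Work.MP_4d52ff_nt.EP.Pascal

/-!
MODULE Mix (size M).  Mixtures of neighbouring columns of the Pascal matrix.

PROOF.  `Matrix.det` is multilinear in the columns (`Matrix.det_transpose` + `Matrix.detRowAlternating`, and
`MultilinearMap.map_add_univ`: the determinant with columns `u_b + w_b` is the sum over `s : Finset (Fin N)` of the
determinants with columns `s.piecewise u w`; and `MultilinearMap.map_smul_univ`).  So the determinant is
`∑ s, (∏ b ∈ s, al b) (∏ b ∉ s, be b) det C(m_a, j'_b)` with `j'_b = j_b` for `b ∈ s` and `j_b - 1` for `b ∉ s`.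
`j'` is monotone: `j'_b ≤ j_b ≤ j_{b+1} - 1 ≤ j'_{b+1}`.  If `j'` is strictly monotone the minor is `≥ 0`
(`pascal_nonneg`), otherwise two columns agree (a monotone non-injective map) and the minor is 0
(`Matrix.det_zero_of_column_eq`).  The term `s = univ` is positive by `pascal_pos`.
-/

set_option autoImplicit false

namespace Pool.Agent.Work.MP_4d52ff_nt.EP

private lemma det_term {N : ℕ} (m j : Fin N → ℕ) (al be : Fin N → ℚ) (s : Finset (Fin N)) :
    Matrix.det (Matrix.of (s.piecewise (fun b a => al b * ((m a).choose (j b) : ℚ))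
      (fun b a => be b * ((m a).choose (j b - 1) : ℚ)))) =
    (∏ b, if b ∈ s then al b else be b) *
      (Matrix.of fun a b => ((m a).choose (if b ∈ s then j b else j b - 1) : ℚ)).det := by
  classical
  rw [← Matrix.det_transpose (Matrix.of fun a b => ((m a).choose (if b ∈ s then j b else j b - 1) : ℚ)),
    ← Matrix.det_mul_column]
  congr 1
  ext b a
  by_cases hb : b ∈ s <;> simp [Finset.piecewise, hb]

private lemma minor_nonneg {N : ℕ} (m j : Fin N → ℕ) (hm : StrictMono m) (hj : StrictMono j)
    (s : Finset (Fin N)) :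
    0 ≤ (Matrix.of fun a b => ((m a).choose (if b ∈ s then j b else j b - 1) : ℚ)).det := by
  classical
  have hle : ∀ b c : Fin N, b < c →
      (if b ∈ s then j b else j b - 1) ≤ (if c ∈ s then j c else j c - 1) := by
    intro b c hbc
    have := hj hbc
    split_ifs <;> omega
  by_cases hstr : StrictMono (fun b : Fin N => if b ∈ s then j b else j b - 1)
  · exact pascal_nonneg m _ hm hstr
  · have : ∃ b c : Fin N, b < c ∧
        (if b ∈ s then j b else j b - 1) = (if c ∈ s then j c else j c - 1) := by
      by_contra hcon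
      push Not at hcon
      exact hstr (fun b c hbc => lt_of_le_of_ne (hle b c hbc) (hcon b c hbc))
    obtain ⟨b, c, hbc, he⟩ := this
    refine le_of_eq (Matrix.det_zero_of_column_eq (ne_of_lt hbc) ?_).symm
    intro k
    simp only [Matrix.of_apply]
    rw [he]

theorem mix_pos {N : ℕ} (m j : Fin N → ℕ) (hm : StrictMono m) (hj : StrictMono j)
    (h : ∀ a, j a ≤ m a) (al be : Fin N → ℚ) (hal : ∀ b, 0 < al b) (hbe : ∀ b, 0 ≤ be b) :
    0 < (Matrix.of fun a b =>
      al b * ((m a).choose (j b) : ℚ) + be b * ((m a).choose (j b - 1) : ℚ)).det := by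
  classical
  have hdet : (Matrix.of fun a b =>
      al b * ((m a).choose (j b) : ℚ) + be b * ((m a).choose (j b - 1) : ℚ)).det =
      ∑ s : Finset (Fin N), (∏ b, if b ∈ s then al b else be b) *
        (Matrix.of fun a b => ((m a).choose (if b ∈ s then j b else j b - 1) : ℚ)).det := by
    rw [← Matrix.det_transpose]
    have key := (Matrix.detRowAlternating (n := Fin N) (R := ℚ)).toMultilinearMap.map_add_univ
      (fun b a => al b * ((m a).choose (j b) : ℚ)) (fun b a => be b * ((m a).choose (j b - 1) : ℚ))
    refine Eq.trans ?_ (key.trans (Finset.sum_congr rfl fun s _ => ?_))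
    · rfl
    · rw [← det_term]
      rfl
  rw [hdet]
  have hprod : ∀ s : Finset (Fin N), 0 ≤ ∏ b, (if b ∈ s then al b else be b) := by
    intro s
    refine Finset.prod_nonneg fun b _ => ?_
    split_ifs
    · exact (hal b).le
    · exact hbe b
  refine Finset.sum_pos' (fun s _ => mul_nonneg (hprod s) (minor_nonneg m j hm hj s))
    ⟨Finset.univ, Finset.mem_univ _, ?_⟩
  refine mul_pos ?_ ?_
  · refine Finset.prod_pos fun b _ => ?_
    simpa using hal b
  · simpa using pascal_pos m j hm hj h

end Pool.Agent.Work.MP_4d52ff_nt.EP
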