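import Mathlib

/-!
MODULE Pascal (size M-L, Mathlib only).  Total positivity of the Pascal matrix.

For strictly increasing `m_0 < ... < m_{N-1}` and `j_0 < ... < j_{N-1}` the minor `det C(m_a, j_b)` is `≥ 0`, and it
is `> 0` if `j_a ≤ m_a` for all `a`.

PROOF.  Induction on `N` and then on `∑ a, j a` (or on `m_{N-1}`, or `j_0`; strong induction on `N + ∑ j`), for all
`m`, `j` at once; prove both statements together.
`N = 0`: the determinant is 1.
Case `j 0 = 0`, `N = n + 1`.  The first column is constant 1.  Subtract from each row its predecessor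
(`Matrix.det_eq_of_forall_row_eq_smul_add_pred`, coefficients 1): the matrix becomes
first row `C(m_0, j_b)` (first entry 1), row `i + 1`: `C(m_{i+1}, j_b) - C(m_i, j_b)
= ∑ t ∈ Ico (m i) (m (i+1)), C(t, j_b - 1)` for `j_b ≥ 1` (hockey stick: `C(t+1, j) - C(t, j) = C(t, j-1)`,
`Nat.choose_succ_succ`), and `0` for `b = 0`.  Expand along the first column (`Matrix.det_succ_column_zero`): the
determinant is that of the `n × n` matrix `(i, b) ↦ ∑ t ∈ Ico (m i) (m (i+1)), C(t, j_{b+1} - 1)`, by multilinearity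
in the rows (`MultilinearMap.map_sum_finset` applied to `Matrix.detRowAlternating.toMultilinearMap`) it is the sum over
all `t : Fin n → ℕ` with `m i ≤ t i < m (i+1)` (such a `t` is strictly increasing) of the minors
`det C(t_i, j_{b+1} - 1)`; `b ↦ j_{b+1} - 1` is strictly increasing, so every term is `≥ 0`.  If `j_a ≤ m_a` for all `a`,
the term with `t i = m (i+1) - 1` is positive: `j_{i+1} - 1 ≤ m_{i+1} - 1`.
Case `j 0 ≥ 1`.  Same with all `N` rows: the first row is `C(m_0, j_b) = ∑ t ∈ range (m 0), C(t, j_b - 1)` (as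
`j_b ≥ 1`), so the determinant is the sum over all `t : Fin N → ℕ` with `t 0 < m 0`, `m (i-1) ≤ t i < m i` of
`det C(t_i, j_b - 1)`; all terms `≥ 0`; if `j_a ≤ m_a` for all `a`, the term `t i = m i - 1` (note `m 0 ≥ j 0 ≥ 1`) is
positive.  The induction is on `N + ∑ j`.
(Other proofs are fine, e.g. a reference to a Lindstroem-Gessel-Viennot type induction.)
-/

set_option autoImplicit false

namespace Pool.Agent.Work.MP_4d52ff_nt.EP

private lemma hs (a b j : ℕ) (h : a ≤ b) :
    ((b.choose (j + 1) : ℕ) : ℚ) - (a.choose (j + 1) : ℕ) = ∑ t ∈ Finset.Ico a b, ((t.choose j : ℕ) : ℚ) := by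
  induction b, h using Nat.le_induction with
  | base => simp
  | succ b hb ih =>
    rw [Finset.sum_Ico_succ_top hb, ← ih, Nat.choose_succ_succ]
    push_cast
    ring

private lemma rows_sum {n : ℕ} (lo hi k : Fin n → ℕ) :
    (Matrix.of fun a b => ∑ t ∈ Finset.Ico (lo a) (hi a), ((t.choose (k b) : ℕ) : ℚ)).det =
      ∑ r ∈ Fintype.piFinset (fun a => Finset.Ico (lo a) (hi a)),
        (Matrix.of fun a b => (((r a).choose (k b) : ℕ) : ℚ)).det := by
  have := (Matrix.detRowAlternating (n := Fin n) (R := ℚ)).toMultilinearMap.map_sum_finset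
    (fun (_ : Fin n) (t : ℕ) => fun b => ((t.choose (k b) : ℕ) : ℚ)) (fun a => Finset.Ico (lo a) (hi a))
  have h2 : (fun i => ∑ t ∈ Finset.Ico (lo i) (hi i), fun b => ((t.choose (k b) : ℕ) : ℚ)) =
      (fun a b => ∑ t ∈ Finset.Ico (lo a) (hi a), ((t.choose (k b) : ℕ) : ℚ)) := by
    funext a b
    simp
  rw [h2] at this
  exact this

private def Good {N : ℕ} (j : Fin N → ℕ) : Prop :=
  ∀ m : Fin N → ℕ, StrictMono m →
    0 ≤ (Matrix.of fun a b => ((m a).choose (j b) : ℚ)).det ∧
    ((∀ a, j a ≤ m a) → 0 < (Matrix.of fun a b => ((m a).choose (j b) : ℚ)).det)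

private lemma step {n : ℕ} (k lo hi : Fin n → ℕ) (hk : Good k)
    (hlh : ∀ a b : Fin n, a < b → hi a ≤ lo b) :
    0 ≤ (Matrix.of fun a b => ∑ t ∈ Finset.Ico (lo a) (hi a), ((t.choose (k b) : ℕ) : ℚ)).det ∧
    ((∀ a, k a + 1 ≤ hi a ∧ lo a < hi a) →
      0 < (Matrix.of fun a b => ∑ t ∈ Finset.Ico (lo a) (hi a), ((t.choose (k b) : ℕ) : ℚ)).det) := by
  rw [rows_sum]
  have hmono : ∀ r ∈ Fintype.piFinset (fun a => Finset.Ico (lo a) (hi a)), StrictMono r := by
    intro r hr a b hab
    rw [Fintype.mem_piFinset] at hr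
    have h1 := hr a
    have h2 := hr b
    rw [Finset.mem_Ico] at h1 h2
    have := hlh a b hab
    omega
  refine ⟨Finset.sum_nonneg fun r hr => (hk r (hmono r hr)).1, fun h => ?_⟩
  have hmem : (fun a => hi a - 1) ∈ Fintype.piFinset (fun a => Finset.Ico (lo a) (hi a)) := by
    rw [Fintype.mem_piFinset]
    intro a
    rw [Finset.mem_Ico]
    have := h a
    omega
  refine Finset.sum_pos' (fun r hr => (hk r (hmono r hr)).1) ⟨_, hmem, ?_⟩
  refine (hk _ (hmono _ hmem)).2 fun a => ?_
  have := h a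
  omega

private lemma detB {n : ℕ} (m : Fin (n + 1) → ℕ) (j : Fin (n + 1) → ℕ) :
    (Matrix.of fun a b => ((m a).choose (j b) : ℚ)).det =
      (Matrix.of (Fin.cases (fun b => ((m 0).choose (j b) : ℚ))
        (fun (i : Fin n) b => ((m i.succ).choose (j b) : ℚ) - ((m i.castSucc).choose (j b) : ℚ)))).det := by
  refine Matrix.det_eq_of_forall_row_eq_smul_add_pred (fun _ => 1) ?_ ?_
  · intro b
    simp
  · intro i b
    simp

private lemma good_zero {n : ℕ} (j : Fin (n + 1) → ℕ) (hj : StrictMono j) (h0 : j 0 = 0)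
    (ih : Good (fun b : Fin n => j b.succ - 1)) : Good j := by
  intro m hm
  have hpos : ∀ b : Fin n, 1 ≤ j b.succ := by
    intro b
    have := hj (Fin.succ_pos b)
    omega
  have key : (Matrix.of fun a b => ((m a).choose (j b) : ℚ)).det =
      (Matrix.of fun (a b : Fin n) => ∑ t ∈ Finset.Ico (m a.castSucc) (m a.succ),
        ((t.choose (j b.succ - 1) : ℕ) : ℚ)).det := by
    rw [detB, Matrix.det_succ_column_zero, Fin.sum_univ_succ]
    rw [Finset.sum_eq_zero]
    · simp only [Fin.val_zero, pow_zero, one_mul, Matrix.of_apply, Fin.cases_zero, h0,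
        Nat.choose_zero_right, Nat.cast_one, add_zero]
      congr 1
      ext a b
      simp only [Matrix.submatrix_apply, Fin.succAbove_zero, Matrix.of_apply, Fin.cases_succ]
      rw [← hs _ _ _ (hm.monotone (Fin.castSucc_lt_succ (i := a)).le)]
      rw [Nat.sub_add_cancel (hpos b)]
    · intro i _
      simp [h0]
  rw [key]
  have hst := step (fun b : Fin n => j b.succ - 1) (fun a => m a.castSucc) (fun a => m a.succ) ih
    (fun a b hab => hm.monotone (by
      rw [Fin.le_def, Fin.val_succ, Fin.val_castSucc]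
      exact hab))
  refine ⟨hst.1, fun h => hst.2 fun a => ⟨?_, hm Fin.castSucc_lt_succ⟩⟩
  have h1 := hpos a
  have h2 := h a.succ
  show j a.succ - 1 + 1 ≤ m a.succ
  omega

private lemma good_succ {n : ℕ} (j : Fin (n + 1) → ℕ) (hj : StrictMono j) (h0 : 1 ≤ j 0)
    (ih : Good (fun b : Fin (n + 1) => j b - 1)) : Good j := by
  intro m hm
  have hpos : ∀ b : Fin (n + 1), 1 ≤ j b := fun b => h0.trans (hj.monotone (Fin.zero_le b))
  have key : (Matrix.of fun a b => ((m a).choose (j b) : ℚ)).det =
      (Matrix.of fun (a b : Fin (n + 1)) =>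
        ∑ t ∈ Finset.Ico ((Fin.cases 0 (fun i : Fin n => m i.castSucc) a : ℕ)) (m a),
        ((t.choose (j b - 1) : ℕ) : ℚ)).det := by
    rw [detB]
    congr 1
    ext a b
    refine Fin.cases ?_ (fun i => ?_) a
    · simp only [Matrix.of_apply, Fin.cases_zero]
      rw [← hs _ _ _ (Nat.zero_le _), Nat.sub_add_cancel (hpos b)]
      rw [Nat.choose_eq_zero_of_lt (by have := hpos b; omega : 0 < j b)]
      simp
    · simp only [Matrix.of_apply, Fin.cases_succ]
      rw [← hs _ _ _ (hm.monotone (Fin.castSucc_lt_succ (i := i)).le), Nat.sub_add_cancel (hpos b)]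
  rw [key]
  have hst := step (fun b : Fin (n + 1) => j b - 1)
    (fun a => (Fin.cases 0 (fun i : Fin n => m i.castSucc) a : ℕ)) m ih
    (fun a b hab => by
      obtain ⟨i, rfl⟩ : ∃ i : Fin n, b = i.succ := ⟨b.pred (Fin.ne_zero_of_lt hab), by simp⟩
      simp only [Fin.cases_succ]
      refine hm.monotone ?_
      rw [Fin.le_def, Fin.val_castSucc]
      rw [Fin.lt_def, Fin.val_succ] at hab
      omega)
  refine ⟨hst.1, fun h => hst.2 fun a => ⟨?_, ?_⟩⟩
  · have h1 := hpos a
    have h2 := h a
    show j a - 1 + 1 ≤ m a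
    omega
  · refine Fin.cases ?_ (fun i => ?_) a
    · simp only [Fin.cases_zero]
      exact Nat.lt_of_lt_of_le (Nat.lt_of_lt_of_le Nat.zero_lt_one h0) (h 0)
    · simp only [Fin.cases_succ]
      exact hm Fin.castSucc_lt_succ

private lemma good_all (s : ℕ) : ∀ (N : ℕ) (j : Fin N → ℕ), StrictMono j → N + ∑ a, j a = s → Good j := by
  induction s using Nat.strong_induction_on with
  | _ s ih =>
    intro N j hj hs'
    rcases N with _ | n
    · intro m _
      simp
    · by_cases h0 : j 0 = 0
      · refine good_zero j hj h0 ?_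
        have hpos : ∀ b : Fin n, 1 ≤ j b.succ := by
          intro b
          have := hj (Fin.succ_pos b)
          omega
        refine ih (n + ∑ b : Fin n, (j b.succ - 1)) ?_ n _ ?_ rfl
        · rw [← hs', Fin.sum_univ_succ, h0]
          have : ∑ b : Fin n, (j b.succ - 1) ≤ ∑ b : Fin n, j b.succ :=
            Finset.sum_le_sum fun b _ => Nat.sub_le _ _
          omega
        · intro a b hab
          have h1 := hj (Fin.succ_lt_succ_iff.2 hab)
          have h2 := hpos a
          have h3 := hpos b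
          show j a.succ - 1 < j b.succ - 1
          omega
      · have h1 : 1 ≤ j 0 := Nat.one_le_iff_ne_zero.2 h0
        refine good_succ j hj h1 ?_
        have hpos : ∀ b : Fin (n + 1), 1 ≤ j b := fun b => h1.trans (hj.monotone (Fin.zero_le b))
        refine ih (n + 1 + ∑ b : Fin (n + 1), (j b - 1)) ?_ (n + 1) _ ?_ rfl
        · rw [← hs', Fin.sum_univ_succ, Fin.sum_univ_succ]
          have : ∑ b : Fin n, (j b.succ - 1) ≤ ∑ b : Fin n, j b.succ :=
            Finset.sum_le_sum fun b _ => Nat.sub_le _ _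
          omega
        · intro a b hab
          have h1 := hj hab
          have h2 := hpos a
          have h3 := hpos b
          show j a - 1 < j b - 1
          omega

theorem pascal_nonneg {N : ℕ} (m j : Fin N → ℕ) (hm : StrictMono m) (hj : StrictMono j) :
    0 ≤ (Matrix.of fun a b => ((m a).choose (j b) : ℚ)).det :=
  (good_all _ N j hj rfl m hm).1

theorem pascal_pos {N : ℕ} (m j : Fin N → ℕ) (hm : StrictMono m) (hj : StrictMono j)
    (h : ∀ a, j a ≤ m a) :
    0 < (Matrix.of fun a b => ((m a).choose (j b) : ℚ)).det :=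
  (good_all _ N j hj rfl m hm).2 h

end Pool.Agent.Work.MP_4d52ff_nt.EP
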