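import Pool.Agent.Work.MP_4d52ff_nt.R.Defs

/-!
MODULE SumF (size M-L).  The sum formula of depth two: `∑_{a=2}^{w-1} ζ(a, w-a) = ζ(w)`, `w ≥ 3`.

PROOF (finite sums, `H` of MZV.lean: `H [a,b] N = ∑_{n<N} n^(-a) ∑_{l<n} l^(-b)`, `0⁻¹ = 0`, so all sums are over
positive `n`, `l`).  Let `h k = ∑_{i=1}^{k} 1/i`.  For `n > l ≥ 1` the geometric sum (`Commute.geom_sum₂` /
`geom_sum₂_mul`) gives `∑_{a=2}^{w-1} n^(-a) l^(-(w-a)) = (l^(-(w-2)) - n^(-(w-2))) / (n (n-l))`.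
Sum over `1 ≤ l < n < N`: second part `∑_n n^(-(w-1)) h(n-1)`; first part `∑_l l^(-(w-2)) ∑_{k=1}^{N-1-l} 1/(k (k+l))
= ∑_l l^(-(w-1)) (h(N-1-l) - h(N-1) + h l)`.  So with `h n - h(n-1) = 1/n`
`∑_{a=2}^{w-1} H [a, w-a] N = H [w] N - E N`, `E N = ∑_{l<N} l^(-(w-1)) (h(N-1) - h(N-1-l))`, and
`0 ≤ E N ≤ ∑_{l=1}^{N-1} l^(-2) * l/(N-l) = ∑ 1/(l (N-l)) = (1/N) ∑ (1/l + 1/(N-l)) ≤ 2 h(N-1)/N → 0`
(`h(N-1)/N → 0`: Cesaro, or `h k ≤ 2 sqrt k`, or `Real.add_pow_le_pow_mul_pow_of_add_eq_one`-free: e.g.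
`harmonic_le_one_add_log` and `Real.isLittleO_log_id_atTop`).  Conclude with `tendsto_H` (`Adm_cons`) and uniqueness of
limits.  (Proofs with infinite double series are fine too.)
-/

set_option autoImplicit false

namespace Pool.Agent.Work.MP_4d52ff_nt.EP

open Finset Filter Topology

private noncomputable def hh (k : ℕ) : ℝ := ∑ i ∈ Finset.range k, ((i : ℝ) + 1)⁻¹

private theorem hh_succ (k : ℕ) : hh (k + 1) = hh k + ((k : ℝ) + 1)⁻¹ := by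
  simp [hh, Finset.sum_range_succ]

private theorem hh_zero : hh 0 = 0 := by simp [hh]

private noncomputable def EE (w K : ℕ) : ℝ :=
  ∑ l ∈ Finset.range (K + 1), ((l : ℝ) ^ (w - 1))⁻¹ * (hh K - hh (K - l))

/-- the geometric sum -/
private theorem geo (m : ℕ) (n l : ℝ) (hn : n ≠ 0) (hl : l ≠ 0) (hnl : n - l ≠ 0) :
    ∑ a ∈ Finset.Ico 2 (m + 3), (n ^ a)⁻¹ * (l ^ (m + 3 - a))⁻¹ =
      ((l ^ (m + 1))⁻¹ - (n ^ (m + 1))⁻¹) * (n * (n - l))⁻¹ := by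
  have h1 : ∑ a ∈ Finset.Ico 2 (m + 3), (n ^ a)⁻¹ * (l ^ (m + 3 - a))⁻¹ =
      ∑ i ∈ Finset.range (m + 1), (n⁻¹) ^ i * (l⁻¹) ^ (m - i) * (n⁻¹ * n⁻¹ * l⁻¹) := by
    rw [Finset.sum_Ico_eq_sum_range]
    refine Finset.sum_congr (by congr 1) fun i hi => ?_
    have hi' : i ≤ m := by
      have := Finset.mem_range.1 hi
      omega
    have e1 : m + 3 - (2 + i) = (m - i) + 1 := by omega
    rw [e1, ← inv_pow, ← inv_pow]
    ring
  rw [h1, ← Finset.sum_mul]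
  have h2 := (Commute.all (n⁻¹) (l⁻¹)).geom_sum₂_mul (m + 1)
  have h3 : n⁻¹ - l⁻¹ ≠ 0 := by
    rw [inv_sub_inv hn hl]
    refine div_ne_zero ?_ (mul_ne_zero hn hl)
    intro h
    apply hnl
    linarith
  have h4 : ∑ i ∈ Finset.range (m + 1), (n⁻¹) ^ i * (l⁻¹) ^ (m - i) =
      ((n⁻¹) ^ (m + 1) - (l⁻¹) ^ (m + 1)) * (n⁻¹ - l⁻¹)⁻¹ := by
    rw [eq_mul_inv_iff_mul_eq₀ h3, ← h2]
    congr 1
  rw [h4, inv_sub_inv hn hl, ← inv_pow, ← inv_pow, inv_div]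
  have h5 : l - n ≠ 0 := by
    intro h
    apply hnl
    linarith
  have e : (n * l / (l - n)) * (n⁻¹ * n⁻¹ * l⁻¹) = -(n * (n - l))⁻¹ := by
    field_simp
    ring
  calc ((n⁻¹) ^ (m + 1) - (l⁻¹) ^ (m + 1)) * (n * l / (l - n)) * (n⁻¹ * n⁻¹ * l⁻¹)
      = ((n⁻¹) ^ (m + 1) - (l⁻¹) ^ (m + 1)) * ((n * l / (l - n)) * (n⁻¹ * n⁻¹ * l⁻¹)) := by ring
    _ = ((l⁻¹) ^ (m + 1) - (n⁻¹) ^ (m + 1)) * (n * (n - l))⁻¹ := by rw [e]; ring

private theorem two_H (a b N : ℕ) : H [a, b] (N + 1) = H [a, b] N +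
    ∑ l ∈ Finset.range N, ((N : ℝ) ^ a)⁻¹ * ((l : ℝ) ^ b)⁻¹ := by
  rw [H_cons_succ, H_cons b [], Finset.mul_sum]
  simp

private theorem hh_reflect (K : ℕ) :
    ∑ j ∈ Finset.range K, ((K : ℝ) - j)⁻¹ = hh K := by
  unfold hh
  rw [← Finset.sum_range_reflect]
  refine Finset.sum_congr rfl fun j hj => ?_
  have := Finset.mem_range.1 hj
  congr 1
  rw [Nat.sub_sub, Nat.cast_sub (by omega)]
  push_cast
  ring

private theorem main_id (m K : ℕ) :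
    ∑ a ∈ Finset.Ico 2 (m + 3), H [a, m + 3 - a] (K + 1) = H [m + 3] (K + 1) - EE (m + 3) K := by
  induction K with
  | zero =>
    have h1 : ∀ a ∈ Finset.Ico 2 (m + 3), H [a, m + 3 - a] (0 + 1) = 0 := by
      intro a ha
      have := Finset.mem_Ico.1 ha
      rw [two_H]
      simp
    rw [Finset.sum_eq_zero h1]
    simp [H_cons, EE]
  | succ K ih =>
    have h1 : ∑ a ∈ Finset.Ico 2 (m + 3), H [a, m + 3 - a] (K + 1 + 1) =
        ∑ a ∈ Finset.Ico 2 (m + 3), H [a, m + 3 - a] (K + 1) +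
        ∑ l ∈ Finset.range (K + 1), ∑ a ∈ Finset.Ico 2 (m + 3),
          (((K + 1 : ℕ) : ℝ) ^ a)⁻¹ * ((l : ℝ) ^ (m + 3 - a))⁻¹ := by
      rw [Finset.sum_comm, ← Finset.sum_add_distrib]
      exact Finset.sum_congr rfl fun a _ => two_H a _ _
    have h2 : ∑ l ∈ Finset.range (K + 1), ∑ a ∈ Finset.Ico 2 (m + 3),
          (((K + 1 : ℕ) : ℝ) ^ a)⁻¹ * ((l : ℝ) ^ (m + 3 - a))⁻¹ =
        ∑ j ∈ Finset.range K, ((((j : ℝ) + 1) ^ (m + 1))⁻¹ - (((K : ℝ) + 1) ^ (m + 1))⁻¹) *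
          (((K : ℝ) + 1) * ((K : ℝ) - j))⁻¹ := by
      rw [Finset.sum_range_succ']
      have h0 : ∑ a ∈ Finset.Ico 2 (m + 3),
          (((K + 1 : ℕ) : ℝ) ^ a)⁻¹ * ((((0 : ℕ)) : ℝ) ^ (m + 3 - a))⁻¹ = 0 := by
        refine Finset.sum_eq_zero fun a ha => ?_
        have := Finset.mem_Ico.1 ha
        rw [Nat.cast_zero, zero_pow (by omega)]
        simp
      rw [h0, add_zero]
      refine Finset.sum_congr rfl fun j hj => ?_
      have hj' : (j : ℝ) + 1 ≤ K := by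
        exact_mod_cast Finset.mem_range.1 hj
      have hj0 : (0 : ℝ) ≤ j := Nat.cast_nonneg j
      push_cast
      rw [geo m ((K : ℝ) + 1) ((j : ℝ) + 1) (by linarith) (by linarith) (by linarith)]
      congr 3
      ring
    have h3 : EE (m + 3) (K + 1) = EE (m + 3) K + (((K : ℝ) + 1) ^ (m + 2))⁻¹ * hh (K + 1) +
        ∑ j ∈ Finset.range K, (((j : ℝ) + 1) ^ (m + 2))⁻¹ *
          (((K : ℝ) + 1)⁻¹ - ((K : ℝ) - j)⁻¹) := by
      unfold EE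
      have e1 : m + 3 - 1 = m + 2 := by omega
      rw [e1, Finset.sum_range_succ _ (K + 1)]
      have e2 : hh (K + 1) - hh (K + 1 - (K + 1)) = hh (K + 1) := by
        rw [Nat.sub_self, hh_zero, sub_zero]
      rw [e2]
      have e3 : ∑ l ∈ Finset.range (K + 1), ((l : ℝ) ^ (m + 2))⁻¹ * (hh (K + 1) - hh (K + 1 - l)) =
          ∑ l ∈ Finset.range (K + 1), ((l : ℝ) ^ (m + 2))⁻¹ * (hh K - hh (K - l)) +
          ∑ l ∈ Finset.range (K + 1), ((l : ℝ) ^ (m + 2))⁻¹ *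
            (((K : ℝ) + 1)⁻¹ - ((K : ℝ) - l + 1)⁻¹) := by
        rw [← Finset.sum_add_distrib]
        refine Finset.sum_congr rfl fun l hl => ?_
        have hl' : l ≤ K := by
          have := Finset.mem_range.1 hl
          omega
        have e4 : K + 1 - l = (K - l) + 1 := by omega
        rw [e4, hh_succ, hh_succ, Nat.cast_sub hl']
        ring
      rw [e3]
      have e5 : ∑ l ∈ Finset.range (K + 1), ((l : ℝ) ^ (m + 2))⁻¹ *
            (((K : ℝ) + 1)⁻¹ - ((K : ℝ) - l + 1)⁻¹) =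
          ∑ j ∈ Finset.range K, (((j : ℝ) + 1) ^ (m + 2))⁻¹ *
          (((K : ℝ) + 1)⁻¹ - ((K : ℝ) - j)⁻¹) := by
        rw [Finset.sum_range_succ']
        simp only [Nat.cast_zero, ne_eq, Nat.add_eq_zero_iff, OfNat.ofNat_ne_zero, and_false,
          not_false_eq_true, zero_pow, inv_zero, zero_mul, add_zero]
        refine Finset.sum_congr rfl fun j _ => ?_
        push_cast
        congr 3
        ring
      rw [e5]
      push_cast
      ring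
    rw [h1, h2, ih, h3, H_cons_succ (m + 3) [] (K + 1), H_nil]
    have h4 : ∑ j ∈ Finset.range K, ((((j : ℝ) + 1) ^ (m + 1))⁻¹ - (((K : ℝ) + 1) ^ (m + 1))⁻¹) *
          (((K : ℝ) + 1) * ((K : ℝ) - j))⁻¹ +
        ∑ j ∈ Finset.range K, (((j : ℝ) + 1) ^ (m + 2))⁻¹ *
          (((K : ℝ) + 1)⁻¹ - ((K : ℝ) - j)⁻¹) = -(((K : ℝ) + 1) ^ (m + 2))⁻¹ * hh K := by
      rw [← hh_reflect, Finset.mul_sum, ← Finset.sum_add_distrib]
      refine Finset.sum_congr rfl fun j hj => ?_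
      have hj' : (j : ℝ) + 1 ≤ K := by
        exact_mod_cast Finset.mem_range.1 hj
      have hj0 : (0 : ℝ) ≤ j := Nat.cast_nonneg j
      have a1 : (K : ℝ) + 1 ≠ 0 := by linarith
      have a2 : (j : ℝ) + 1 ≠ 0 := by linarith
      have a3 : (K : ℝ) - j ≠ 0 := by linarith
      have b1 : ((K : ℝ) + 1)⁻¹ - ((K : ℝ) - j)⁻¹ =
          -((j : ℝ) + 1) * (((K : ℝ) + 1) * ((K : ℝ) - j))⁻¹ := by
        rw [inv_sub_inv a1 a3, div_eq_mul_inv]
        ring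
      have b2 : (((j : ℝ) + 1) ^ (m + 2))⁻¹ * ((j : ℝ) + 1) = (((j : ℝ) + 1) ^ (m + 1))⁻¹ := by
        rw [pow_succ _ (m + 1), mul_inv, mul_assoc, inv_mul_cancel₀ a2, mul_one]
      have b3 : (((K : ℝ) + 1) ^ (m + 2))⁻¹ = (((K : ℝ) + 1) ^ (m + 1))⁻¹ * ((K : ℝ) + 1)⁻¹ := by
        rw [pow_succ _ (m + 1), mul_inv]
      rw [b1, b3, mul_inv]
      linear_combination (-(((K : ℝ) + 1)⁻¹ * ((K : ℝ) - j)⁻¹)) * b2
    have h5 : (((K : ℝ) + 1) ^ (m + 3))⁻¹ = (((K : ℝ) + 1) ^ (m + 2))⁻¹ * ((K : ℝ) + 1)⁻¹ := by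
      rw [pow_succ _ (m + 2), mul_inv]
    have h6 := hh_succ K
    push_cast
    rw [h5, h6]
    linear_combination h4

private theorem hh_mono {a b : ℕ} (h : a ≤ b) : hh a ≤ hh b := by
  unfold hh
  exact Finset.sum_le_sum_of_subset_of_nonneg (Finset.range_mono h) fun i _ _ => by positivity

private theorem hh_diff (K l : ℕ) (hl : l ≤ K) :
    hh K - hh (K - l) ≤ l * ((K : ℝ) - l + 1)⁻¹ := by
  obtain ⟨d, rfl⟩ := Nat.exists_eq_add_of_le hl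
  have e : l + d - l = d := by omega
  rw [e]
  induction l with
  | zero => simp
  | succ l ih =>
    have h1 := ih (by omega) (by omega)
    have e2 : l + 1 + d = (l + d) + 1 := by omega
    rw [e2, hh_succ]
    push_cast at h1 ⊢
    have h2 : ((l : ℝ) + d + 1)⁻¹ ≤ ((d : ℝ) + 1)⁻¹ := by
      have : (0 : ℝ) ≤ l := Nat.cast_nonneg l
      have : (0 : ℝ) ≤ d := Nat.cast_nonneg d
      exact inv_anti₀ (by linarith) (by linarith)
    have e3 : (l : ℝ) + d - l + 1 = (d : ℝ) + 1 := by ring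
    have e4 : (l : ℝ) + d + 1 - (l + 1) + 1 = (d : ℝ) + 1 := by ring
    rw [e3] at h1
    rw [e4]
    linarith

private theorem EE_nonneg (w K : ℕ) : 0 ≤ EE w K := by
  unfold EE
  refine Finset.sum_nonneg fun l _ => mul_nonneg (by positivity) ?_
  have := hh_mono (Nat.sub_le K l)
  linarith

private theorem EE_le (m K : ℕ) : EE (m + 3) K ≤ 2 * ((K : ℝ)⁻¹ * hh K) := by
  unfold EE
  have e1 : m + 3 - 1 = m + 2 := by omega
  rw [e1, Finset.sum_range_succ']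
  simp only [Nat.cast_zero, ne_eq, Nat.add_eq_zero_iff, OfNat.ofNat_ne_zero, and_false,
    not_false_eq_true, zero_pow, inv_zero, zero_mul, add_zero]
  have h1 : ∀ j ∈ Finset.range K, (((j + 1 : ℕ) : ℝ) ^ (m + 2))⁻¹ * (hh K - hh (K - (j + 1))) ≤
      (K : ℝ)⁻¹ * (((j : ℝ) + 1)⁻¹ + ((K : ℝ) - j)⁻¹) := by
    intro j hj
    have hj1 : j + 1 ≤ K := Finset.mem_range.1 hj
    have hj' : (j : ℝ) + 1 ≤ K := by exact_mod_cast hj1
    have hj0 : (0 : ℝ) ≤ j := Nat.cast_nonneg j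
    have h2 := hh_diff K (j + 1) hj1
    push_cast at h2 ⊢
    have e2 : (K : ℝ) - (j + 1) + 1 = (K : ℝ) - j := by ring
    rw [e2] at h2
    have h3 : (((j : ℝ) + 1) ^ (m + 2))⁻¹ ≤ (((j : ℝ) + 1) ^ 2)⁻¹ :=
      inv_anti₀ (by positivity) (pow_le_pow_right₀ (by linarith) (by omega))
    have h4 : (0 : ℝ) ≤ ((j : ℝ) + 1) * ((K : ℝ) - j)⁻¹ := by
      have : (0 : ℝ) < (K : ℝ) - j := by linarith
      positivity
    have h5 : (0 : ℝ) ≤ (((j : ℝ) + 1) ^ (m + 2))⁻¹ := by positivity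
    have a1 : (K : ℝ) + 1 ≠ 0 := by linarith
    have a2 : (j : ℝ) + 1 ≠ 0 := by linarith
    have a3 : (0 : ℝ) < (K : ℝ) - j := by linarith
    have a3' : (K : ℝ) - j ≠ 0 := a3.ne'
    have a4 : (0 : ℝ) < K := by linarith
    calc (((j : ℝ) + 1) ^ (m + 2))⁻¹ * (hh K - hh (K - (j + 1)))
        ≤ (((j : ℝ) + 1) ^ (m + 2))⁻¹ * (((j : ℝ) + 1) * ((K : ℝ) - j)⁻¹) :=
          mul_le_mul_of_nonneg_left h2 h5
      _ ≤ (((j : ℝ) + 1) ^ 2)⁻¹ * (((j : ℝ) + 1) * ((K : ℝ) - j)⁻¹) :=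
          mul_le_mul_of_nonneg_right h3 h4
      _ = ((K : ℝ) + 1)⁻¹ * (((j : ℝ) + 1)⁻¹ + ((K : ℝ) - j)⁻¹) := by
          field_simp
          ring
      _ ≤ (K : ℝ)⁻¹ * (((j : ℝ) + 1)⁻¹ + ((K : ℝ) - j)⁻¹) := by
          refine mul_le_mul_of_nonneg_right (inv_anti₀ a4 (by linarith)) ?_
          positivity
  refine (Finset.sum_le_sum h1).trans ?_
  rw [← Finset.mul_sum, Finset.sum_add_distrib, hh_reflect]
  have e3 : ∑ j ∈ Finset.range K, ((j : ℝ) + 1)⁻¹ = hh K := rfl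
  rw [e3]
  exact le_of_eq (by ring)

private theorem EE_tendsto (m : ℕ) : Tendsto (EE (m + 3)) atTop (𝓝 0) := by
  have h1 : Tendsto (fun n : ℕ => ((n : ℝ) + 1)⁻¹) atTop (𝓝 0) :=
    tendsto_inv_atTop_zero.comp (tendsto_atTop_add_const_right _ _ tendsto_natCast_atTop_atTop)
  have h2 := h1.cesaro
  have h3 : Tendsto (fun K : ℕ => 2 * ((K : ℝ)⁻¹ * hh K)) atTop (𝓝 0) := by
    have := h2.const_mul 2
    simpa [hh] using this
  exact squeeze_zero (EE_nonneg _) (EE_le m) h3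

theorem sum_formula (w : ℕ) (hw : 3 ≤ w) :
    ∑ a ∈ Finset.Ico 2 w, zetaL [a, w - a] = zetaL [w] := by
  obtain ⟨m, rfl⟩ := Nat.exists_eq_add_of_le' hw
  have h1 : Tendsto (fun K => ∑ a ∈ Finset.Ico 2 (m + 3), H [a, m + 3 - a] (K + 1)) atTop
      (𝓝 (∑ a ∈ Finset.Ico 2 (m + 3), zetaL [a, m + 3 - a])) := by
    refine tendsto_finsetSum _ fun a ha => ?_
    have ha' := Finset.mem_Ico.1 ha
    have h2 : Adm [a, m + 3 - a] := by
      rw [Adm_cons]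
      refine ⟨ha'.1, fun x hx => ?_⟩
      rw [List.mem_singleton] at hx
      omega
    exact (tendsto_H _ h2).comp (tendsto_add_atTop_nat 1)
  have h3 : Tendsto (fun K => H [m + 3] (K + 1) - EE (m + 3) K) atTop
      (𝓝 (zetaL [m + 3] - 0)) := by
    have h4 : Adm [m + 3] := by
      rw [Adm_cons]
      exact ⟨by omega, by simp⟩
    exact ((tendsto_H _ h4).comp (tendsto_add_atTop_nat 1)).sub (EE_tendsto m)
  have h5 : (fun K => ∑ a ∈ Finset.Ico 2 (m + 3), H [a, m + 3 - a] (K + 1)) =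
      fun K => H [m + 3] (K + 1) - EE (m + 3) K := funext (main_id m)
  rw [h5] at h1
  have h6 := tendsto_nhds_unique h1 h3
  rw [sub_zero] at h6
  exact h6

end Pool.Agent.Work.MP_4d52ff_nt.EP
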