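import Pool.Agent.Work.MP_4d52ff_nt.EP.Mix

/-!
MODULE Sys (size M).  Square systems with a mixed Pascal matrix, over a valued field.

PROOF.  (a) `dom`: let `A` be a square matrix over `ℚ` with `det A ≠ 0`, `y b : ℂ` with `v (∑ b, A a b * y b) < M` for all
`a`.  Then `y b = ∑ a, (A⁻¹ b a) * (∑ b', A a b' * y b')` (`Matrix.nonsing_inv_mul`, cast to `ℂ`) and `v` of a rational
number is `≤ 1`, so `v (y b) < M` (`Valuation.map_sum_lt`, with `M ≠ 0`).
(b) `sys`: write `T` as the range of `j = T.orderEmbOfFin hT` (strictly increasing, `Finset.range_orderEmbOfFin`).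
`j a ≤ m a` for all `a`: otherwise every `t ∈ T` with `t ≤ m a` is `j b` with `b < a`, so
`(T.filter (· ≤ m a)).card ≤ a`, contradiction with `hdom`.  Apply (a) with the matrix of `mix_pos` (nonzero
determinant) and `y ∘ j`; the sums over `T` and over `Fin N` agree (`Finset.sum_bij` / `Finset.sum_image` with
`T = univ.image j`).
-/

set_option autoImplicit false

namespace Pool.Agent.Work.MP_4d52ff_nt.EP

private lemma dom {Γ : Type} [LinearOrderedCommGroupWithZero Γ] (v : Valuation ℂ Γ)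
    (hv : ∀ q : ℚ, v (q : ℂ) ≤ 1) (M : Γ) (hM : M ≠ 0) {N : ℕ} (A : Fin N → Fin N → ℚ)
    (hA : (Matrix.of A).det ≠ 0) (y : Fin N → ℂ) (hy : ∀ a, v (∑ b, (A a b : ℂ) * y b) < M) (b : Fin N) :
    v (y b) < M := by
  have hu : IsUnit (Matrix.of A).det := isUnit_iff_ne_zero.2 hA
  obtain ⟨B, hB⟩ : ∃ B : Fin N → Fin N → ℚ, ∀ c b', ∑ a, B c a * A a b' = if c = b' then 1 else 0 := by
    refine ⟨fun c a => (Matrix.of A)⁻¹ c a, fun c b' => ?_⟩
    have h3 : ((Matrix.of A)⁻¹ * Matrix.of A) c b' = (1 : Matrix (Fin N) (Fin N) ℚ) c b' := by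
      rw [Matrix.nonsing_inv_mul (Matrix.of A) hu]
    rw [Matrix.mul_apply, Matrix.one_apply] at h3
    exact h3
  have h2 : ∀ b', ∑ a, (B b a : ℂ) * (A a b' : ℂ) = if b = b' then 1 else 0 := by
    intro b'
    have h4 : ((∑ a, B b a * A a b' : ℚ) : ℂ) = ((if b = b' then 1 else 0 : ℚ) : ℂ) := by
      rw [hB]
    push_cast at h4
    rw [h4]
    split_ifs <;> simp
  have h1 : y b = ∑ a, (B b a : ℂ) * ∑ b', (A a b' : ℂ) * y b' := by
    calc y b = ∑ b', (if b = b' then 1 else 0) * y b' := by simp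
      _ = ∑ b', (∑ a, (B b a : ℂ) * (A a b' : ℂ)) * y b' := by
        refine Finset.sum_congr rfl fun b' _ => ?_
        rw [h2]
      _ = ∑ b', ∑ a, (B b a : ℂ) * ((A a b' : ℂ) * y b') := by
        refine Finset.sum_congr rfl fun b' _ => ?_
        rw [Finset.sum_mul]
        exact Finset.sum_congr rfl fun a _ => mul_assoc _ _ _
      _ = ∑ a, (B b a : ℂ) * ∑ b', (A a b' : ℂ) * y b' := by
        rw [Finset.sum_comm]
        refine Finset.sum_congr rfl fun a _ => ?_
        rw [Finset.mul_sum]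
  rw [h1]
  refine Valuation.map_sum_lt _ hM fun a _ => ?_
  rw [map_mul]
  exact lt_of_le_of_lt (mul_le_of_le_one_left' (hv _)) (hy a)

theorem sys {Γ : Type} [LinearOrderedCommGroupWithZero Γ] (v : Valuation ℂ Γ)
    (hv : ∀ q : ℚ, v (q : ℂ) ≤ 1) (M : Γ) (hM : M ≠ 0) (T : Finset ℕ) (al be : ℕ → ℚ)
    (hal : ∀ t ∈ T, 0 < al t) (hbe : ∀ t ∈ T, 0 ≤ be t) (N : ℕ) (hT : T.card = N)
    (m : Fin N → ℕ) (hm : StrictMono m)
    (hdom : ∀ a : Fin N, (a : ℕ) + 1 ≤ (T.filter (fun t => t ≤ m a)).card) (y : ℕ → ℂ)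
    (hy : ∀ a : Fin N, v (∑ t ∈ T, ((al t * ((m a).choose t : ℚ) +
      be t * ((m a).choose (t - 1) : ℚ) : ℚ) : ℂ) * y t) < M) :
    ∀ t ∈ T, v (y t) < M := by
  classical
  set j := T.orderEmbOfFin hT with hj
  have hjT : ∀ a, j a ∈ T := fun a => Finset.orderEmbOfFin_mem T hT a
  have hrange : Finset.univ.image (j : Fin N → ℕ) = T := by
    apply Finset.coe_injective
    rw [Finset.coe_image, Finset.coe_univ, Set.image_univ]
    exact Finset.range_orderEmbOfFin T hT
  have hle : ∀ a, j a ≤ m a := by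
    intro a
    by_contra hlt
    push Not at hlt
    have hsub : T.filter (fun t => t ≤ m a) ⊆ (Finset.Iio a).image (j : Fin N → ℕ) := by
      intro t ht
      rw [Finset.mem_filter] at ht
      have ht1 := ht.1
      rw [← hrange, Finset.mem_image] at ht1
      obtain ⟨b, -, rfl⟩ := ht1
      refine Finset.mem_image_of_mem _ (Finset.mem_Iio.2 ?_)
      have h5 : j b < j a := lt_of_le_of_lt ht.2 hlt
      exact j.lt_iff_lt.1 h5
    have h6 := Finset.card_le_card hsub
    have h7 : ((Finset.Iio a).image (j : Fin N → ℕ)).card ≤ a := by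
      refine Finset.card_image_le.trans ?_
      rw [Fin.card_Iio]
    have h8 := hdom a
    omega
  have hdet := (mix_pos m j hm j.strictMono hle (fun b => al (j b)) (fun b => be (j b))
    (fun b => hal _ (hjT b)) (fun b => hbe _ (hjT b))).ne'
  intro t ht
  rw [← hrange, Finset.mem_image] at ht
  obtain ⟨b, -, rfl⟩ := ht
  refine dom v hv M hM _ hdet (fun b => y (j b)) (fun a => ?_) b
  have h9 := hy a
  have h10 : ∑ t ∈ T, ((al t * ((m a).choose t : ℚ) +
      be t * ((m a).choose (t - 1) : ℚ) : ℚ) : ℂ) * y t =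
      ∑ b, ((al (j b) * ((m a).choose (j b) : ℚ) +
      be (j b) * ((m a).choose (j b - 1) : ℚ) : ℚ) : ℂ) * y (j b) := by
    conv_lhs => rw [← hrange]
    rw [Finset.sum_image fun a _ b _ h => j.injective h]
  rw [h10] at h9
  exact h9

end Pool.Agent.Work.MP_4d52ff_nt.EP
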